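import Mathlib

/-!
JOB QH-2 (about 120 lines): balanced time shifts (the median trick).

`X i j ⊆ ℤ` are symmetric displacement sets. There are shifts `τ i ∈ ℤ` such that for every `i` at most half of the
displacements from `i` point strictly forward after the shift.

Proof. `E τ = ∑ i ∈ C, ∑ j ∈ C, ∑ x ∈ X i j, (x + τ j - τ i).natAbs : ℕ`. Take `τ` with `E τ` minimal (the set of values
of `E` is a nonempty set of naturals: `Nat.find` / `WellFounded.min` / `Nat.sInf_mem`). Fix `i ∈ C`, put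
`τ' = Function.update τ i (τ i + 1)`. Then `E τ ≤ E τ'`. Split `E` into the terms with both indices `≠ i` (unchanged), the
term `(i, i)` (unchanged), and the terms `(i, j)`, `(j, i)`, `j ≠ i`, which are equal in pairs by the symmetry
`x ∈ X i j ↔ -x ∈ X j i` (`Finset.sum_bij` or `sum_nbij'` with `x ↦ -x`; `natAbs (-y) = natAbs y`). So
`∑ j ≠ i, ∑ x ∈ X i j, |x + τ j - τ i - 1| ≥ ∑ j ≠ i, ∑ x ∈ X i j, |x + τ j - τ i|`. Termwise
`|y - 1| = |y| - 1` for `y > 0` and `= |y| + 1` for `y ≤ 0`, so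
`∑ j ≠ i, #{x ∈ X i j | y > 0} ≤ ∑ j ≠ i, #{x ∈ X i j | y ≤ 0}`. For `j = i`: `#{x ∈ X i i | 0 < x} =
#{x ∈ X i i | x < 0} ≤ #{x ∈ X i i | x ≤ 0}` by the symmetry. Work in `ℤ` for the differences.
-/

set_option autoImplicit false

open Finset

namespace Pool.Agent.H21.QG2

/-- the energy of the pair `(i, j)` -/
def en (X : ℕ → ℕ → Finset ℤ) (σ : ℕ → ℤ) (i j : ℕ) : ℕ := ∑ x ∈ X i j, (x + σ j - σ i).natAbs

theorem en_symm {C : Finset ℕ} {X : ℕ → ℕ → Finset ℤ}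
    (hX : ∀ i ∈ C, ∀ j ∈ C, ∀ x, x ∈ X i j ↔ -x ∈ X j i) (σ : ℕ → ℤ) {i j : ℕ} (hi : i ∈ C)
    (hj : j ∈ C) : en X σ i j = en X σ j i := by
  unfold en
  refine Finset.sum_nbij' (fun x => -x) (fun x => -x) ?_ ?_ ?_ ?_ ?_
  · intro x hx
    exact (hX i hi j hj x).1 hx
  · intro x hx
    exact (hX j hj i hi x).1 hx
  · intro x _
    simp
  · intro x _
    simp
  · intro x _
    rw [← Int.natAbs_neg]
    congr 1
    ring

/-- the total energy -/
def tot (C : Finset ℕ) (X : ℕ → ℕ → Finset ℤ) (σ : ℕ → ℤ) : ℕ := ∑ i ∈ C, ∑ j ∈ C, en X σ i j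

theorem tot_eq {C : Finset ℕ} {X : ℕ → ℕ → Finset ℤ}
    (hX : ∀ i ∈ C, ∀ j ∈ C, ∀ x, x ∈ X i j ↔ -x ∈ X j i) (σ : ℕ → ℤ) {i : ℕ} (hi : i ∈ C) :
    tot C X σ = en X σ i i + 2 * (∑ j ∈ C.erase i, en X σ i j) +
      ∑ k ∈ C.erase i, ∑ j ∈ C.erase i, en X σ k j := by
  unfold tot
  rw [← Finset.add_sum_erase C _ hi]
  have h1 : ∀ k, ∑ j ∈ C, en X σ k j = en X σ k i + ∑ j ∈ C.erase i, en X σ k j := by
    intro k
    rw [← Finset.add_sum_erase C _ hi]
  rw [h1 i]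
  have h2 : ∑ k ∈ C.erase i, ∑ j ∈ C, en X σ k j =
      ∑ k ∈ C.erase i, (en X σ k i + ∑ j ∈ C.erase i, en X σ k j) :=
    Finset.sum_congr rfl (fun k _ => h1 k)
  rw [h2, Finset.sum_add_distrib]
  have h3 : ∑ k ∈ C.erase i, en X σ k i = ∑ k ∈ C.erase i, en X σ i k :=
    Finset.sum_congr rfl (fun k hk => en_symm hX σ (Finset.mem_of_mem_erase hk) hi)
  rw [h3]
  ring

theorem abs_step (S : Finset ℤ) (c : ℤ) :
    (∑ x ∈ S, (x + c - 1).natAbs) + #{x ∈ S | 0 < x + c} =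
      (∑ x ∈ S, (x + c).natAbs) + #{x ∈ S | x + c ≤ 0} := by
  rw [Finset.card_filter, Finset.card_filter, ← Finset.sum_add_distrib, ← Finset.sum_add_distrib]
  refine Finset.sum_congr rfl (fun x _ => ?_)
  by_cases h : 0 < x + c
  · rw [if_pos h, if_neg (by omega)]
    omega
  · rw [if_neg h, if_pos (by omega)]
    omega

theorem balance (C : Finset ℕ) (X : ℕ → ℕ → Finset ℤ)
    (hX : ∀ i ∈ C, ∀ j ∈ C, ∀ x, x ∈ X i j ↔ -x ∈ X j i) :
    ∃ τ : ℕ → ℤ, ∀ i ∈ C, ∑ j ∈ C, #{x ∈ X i j | 0 < x + τ j - τ i} ≤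
      ∑ j ∈ C, #{x ∈ X i j | x + τ j - τ i ≤ 0} := by
  obtain ⟨τ, -, hτ⟩ := WellFounded.has_min (measure (tot C X)).wf Set.univ ⟨fun _ => 0, trivial⟩
  refine ⟨τ, fun i hi => ?_⟩
  have hmin : tot C X τ ≤ tot C X (Function.update τ i (τ i + 1)) :=
    not_lt.1 (hτ (Function.update τ i (τ i + 1)) trivial)
  rw [tot_eq hX τ hi, tot_eq hX (Function.update τ i (τ i + 1)) hi] at hmin
  have h1 : en X (Function.update τ i (τ i + 1)) i i = en X τ i i := by
    unfold en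
    refine Finset.sum_congr rfl (fun x _ => ?_)
    congr 1
    ring
  have h2 : ∑ k ∈ C.erase i, ∑ j ∈ C.erase i, en X (Function.update τ i (τ i + 1)) k j =
      ∑ k ∈ C.erase i, ∑ j ∈ C.erase i, en X τ k j := by
    refine Finset.sum_congr rfl (fun k hk => Finset.sum_congr rfl (fun j hj => ?_))
    unfold en
    rw [Function.update_of_ne (Finset.ne_of_mem_erase hk), Function.update_of_ne
      (Finset.ne_of_mem_erase hj)]
  have h3 : ∑ j ∈ C.erase i, en X τ i j ≤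
      ∑ j ∈ C.erase i, en X (Function.update τ i (τ i + 1)) i j := by
    omega
  have h4 : (∑ j ∈ C.erase i, en X (Function.update τ i (τ i + 1)) i j) +
      ∑ j ∈ C.erase i, #{x ∈ X i j | 0 < x + τ j - τ i} =
      (∑ j ∈ C.erase i, en X τ i j) + ∑ j ∈ C.erase i, #{x ∈ X i j | x + τ j - τ i ≤ 0} := by
    rw [← Finset.sum_add_distrib, ← Finset.sum_add_distrib]
    refine Finset.sum_congr rfl (fun j hj => ?_)
    unfold en
    rw [Function.update_of_ne (Finset.ne_of_mem_erase hj), Function.update_self]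
    have h := abs_step (X i j) (τ j - τ i)
    have e1 : ∀ x : ℤ, x + τ j - (τ i + 1) = x + (τ j - τ i) - 1 := fun x => by ring
    have e2 : ∀ x : ℤ, x + τ j - τ i = x + (τ j - τ i) := fun x => by ring
    simp only [e1, e2]
    exact h
  have h5 : #{x ∈ X i i | 0 < x + τ i - τ i} ≤ #{x ∈ X i i | x + τ i - τ i ≤ 0} := by
    refine Finset.card_le_card_of_injOn (fun x => -x) ?_ ?_
    · intro x hx
      rw [Finset.mem_coe, Finset.mem_filter] at hx ⊢
      refine ⟨(hX i hi i hi x).1 hx.1, ?_⟩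
      have h := hx.2
      change -x + τ i - τ i ≤ 0
      omega
    · intro x _ y _ hxy
      exact neg_injective hxy
  rw [← Finset.add_sum_erase C _ hi, ← Finset.add_sum_erase C _ hi]
  omega

end Pool.Agent.H21.QG2
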