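import Mathlib

/-!
JOB QH-1 (about 50 lines): an enumeration from low degrees.

Proof. Induction on `#V` (generalizing `V`). `V = ∅`: `e = fun _ => 0`. Otherwise `h V` gives `u ∈ V` with few
`u' ∈ V`, `rel u u'`; apply the induction hypothesis to `V.erase u` (its subsets are subsets of `V`) to get `e'`; put
`e 0 = u`, `e (x + 1) = e' x` (`Nat.casesOn`). For `x = 0`: the set
`{y ∈ range #V | 0 < y ∧ rel u (e y)}` injects by `e` into `{u' ∈ V | rel u u'}`. For `x + 1`: shift by one.
-/

set_option autoImplicit false

open Finset

namespace Pool.Agent.H21.QG2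

open Classical in
theorem peel (rel : ℕ → ℕ → Prop) (b : ℝ) (V : Finset ℕ)
    (h : ∀ U ⊆ V, U.Nonempty → ∃ u ∈ U, (#{u' ∈ U | rel u u'} : ℝ) < b) :
    ∃ e : ℕ → ℕ, (∀ x < #V, e x ∈ V) ∧ (∀ x < #V, ∀ y < #V, e x = e y → x = y) ∧
      ∀ x < #V, (#{y ∈ range (#V) | x < y ∧ rel (e x) (e y)} : ℝ) < b := by
  induction hn : #V generalizing V with
  | zero =>
    exact ⟨fun _ => 0, fun x hx => absurd hx (Nat.not_lt_zero _),
      fun x hx => absurd hx (Nat.not_lt_zero _), fun x hx => absurd hx (Nat.not_lt_zero _)⟩
  | succ n ih =>
    have hne : V.Nonempty := Finset.card_pos.1 (by omega)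
    obtain ⟨u, huV, hu⟩ := h V subset_rfl hne
    obtain ⟨e', h1, h2, h3⟩ := ih (V.erase u)
      (fun U hU hUne => h U (hU.trans (Finset.erase_subset _ _)) hUne)
      (by rw [Finset.card_erase_of_mem huV]; omega)
    refine ⟨fun x => Nat.casesOn x u e', ?_, ?_, ?_⟩
    · rintro (_ | x) hx
      · exact huV
      · exact Finset.mem_of_mem_erase (h1 x (by omega))
    · rintro (_ | x) hx (_ | y) hy hxy
      · rfl
      · exact absurd hxy.symm (Finset.ne_of_mem_erase (h1 y (by omega)))
      · exact absurd hxy (Finset.ne_of_mem_erase (h1 x (by omega)))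
      · exact congrArg _ (h2 x (by omega) y (by omega) hxy)
    · rintro (_ | x) hx
      · refine lt_of_le_of_lt ?_ hu
        norm_cast
        apply Finset.card_le_card_of_injOn (fun x => Nat.casesOn x u e')
        · intro y hy
          rw [Finset.mem_coe, Finset.mem_filter, Finset.mem_range] at hy
          obtain ⟨hy1, hy2, hy3⟩ := hy
          obtain _ | y := y
          · exact absurd hy2 (lt_irrefl _)
          · rw [Finset.mem_coe, Finset.mem_filter]
            exact ⟨Finset.mem_of_mem_erase (h1 y (by omega)), hy3⟩
        · intro y hy y' hy' hyy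
          rw [Finset.mem_coe, Finset.mem_filter, Finset.mem_range] at hy hy'
          obtain ⟨hy1, hy2, -⟩ := hy
          obtain ⟨hy1', hy2', -⟩ := hy'
          obtain _ | y := y
          · exact absurd hy2 (lt_irrefl _)
          obtain _ | y' := y'
          · exact absurd hy2' (lt_irrefl _)
          exact congrArg _ (h2 y (by omega) y' (by omega) hyy)
      · refine lt_of_le_of_lt ?_ (h3 x (by omega))
        norm_cast
        apply Finset.card_le_card_of_injOn (fun y => y - 1)
        · intro y hy
          rw [Finset.mem_coe, Finset.mem_filter, Finset.mem_range] at hy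
          obtain ⟨hy1, hy2, hy3⟩ := hy
          obtain _ | y := y
          · exact absurd hy2 (Nat.not_lt_zero _)
          · rw [Finset.mem_coe, Finset.mem_filter, Finset.mem_range]
            simp only [Nat.add_sub_cancel]
            exact ⟨by omega, by omega, hy3⟩
        · intro y hy y' hy' hyy
          rw [Finset.mem_coe, Finset.mem_filter] at hy hy'
          have ha := hy.2.1
          have hb := hy'.2.1
          simp only at hyy
          omega

end Pool.Agent.H21.QG2
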