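import Pool.Agent.H21.QG.Final
import Pool.Agent.H21.QG.Clusters2
import Pool.Agent.H21.QG2.Peel

/-!
The general form of the quarter theorem: in every large finite set `V` of integers `≤ c R(N)` that
misses a residue class modulo every prime `≤ P` there is a nonempty subset `U` in which every
element has at least `(1/4 - ε) #V` partners at a distance which is a frequent gap.
-/

set_option autoImplicit false

open Finset Filter Topology

namespace Pool.Agent.H21.QG2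

open Pool.Agent.H21.QG

/-- the Erdős–Rankin size -/
noncomputable def RR (N : ℕ) : ℝ :=
  Real.log N * Real.log (Real.log N) * Real.log (Real.log (Real.log (Real.log N))) /
    (Real.log (Real.log (Real.log N))) ^ 2

/-- `t` occurs at least `N ^ (1 - ε)` times among the first gaps -/
def Freq (N : ℕ) (ε : ℝ) (t : ℕ) : Prop := (N : ℝ) ^ (1 - ε) ≤ occ N t

lemma occ_zero (N : ℕ) : occ N 0 = 0 := by
  unfold occ
  rw [Set.ncard_eq_zero ((Set.finite_Iio N).subset (fun n hn => hn.1))]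
  ext n
  simp only [Set.mem_setOf_eq, add_zero, Set.mem_empty_iff_false, iff_false, not_and]
  intro _ h
  exact (Nat.nth_strictMono Nat.infinite_setOfPred_prime (Nat.lt_succ_self n)).ne' h

lemma not_freq_zero (N : ℕ) (hN : 1 ≤ N) (ε : ℝ) : ¬ Freq N ε 0 := by
  unfold Freq
  rw [occ_zero, Nat.cast_zero, not_le]
  exact Real.rpow_pos_of_pos (by exact_mod_cast hN) _

private lemma adm_aux3 (K : ℕ) (H : Fin 5 → Finset ℕ) (hH : ∀ i, #(H i) = K) (V : Finset ℕ)
    (hV : ∀ i, ∀ h ∈ H i, h ∈ V)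
    (hadm : ∀ p : ℕ, p.Prime → p ≤ 5 * K → ∃ r, ∀ v ∈ V, ¬ v ≡ r [MOD p]) (p : ℕ) (hp : p.Prime) :
    ∃ r, ∀ i, ∀ h ∈ H i, ¬ h ≡ r [MOD p] := by
  classical
  by_cases hpk : p ≤ 5 * K
  · obtain ⟨r, hr⟩ := hadm p hp hpk
    exact ⟨r, fun i h hh => hr h (hV i h hh)⟩
  · push Not at hpk
    by_contra hcon
    push Not at hcon
    have h1 : (Finset.range p) ⊆ (Finset.univ.biUnion H).image (fun τ => τ % p) := by
      intro r hr
      rw [Finset.mem_range] at hr
      obtain ⟨i, τ, hτ, h2⟩ := hcon r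
      rw [Finset.mem_image]
      refine ⟨τ, ?_, ?_⟩
      · rw [Finset.mem_biUnion]
        exact ⟨i, Finset.mem_univ _, hτ⟩
      · have h3 : τ % p = r % p := h2
        rw [h3, Nat.mod_eq_of_lt hr]
    have h2 := (Finset.card_le_card h1).trans Finset.card_image_le
    have h3 : #(Finset.univ.biUnion H) ≤ 5 * K := by
      calc #(Finset.univ.biUnion H) ≤ ∑ i : Fin 5, #(H i) := Finset.card_biUnion_le
        _ = ∑ i : Fin 5, K := Finset.sum_congr rfl (fun i _ => hH i)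
        _ = 5 * K := by simp
    rw [Finset.card_range] at h2
    omega

open Classical in
theorem quarter_core : ∃ P : ℕ, ∃ c : ℝ, 0 < c ∧ ∀ ε : ℝ, 0 < ε → ∃ n₀ N₀ : ℕ,
    ∀ N : ℕ, N₀ ≤ N → ∀ V : Finset ℕ, n₀ ≤ #V → (∀ v ∈ V, (v : ℝ) ≤ c * RR N) →
    (∀ p : ℕ, p.Prime → p ≤ P → ∃ r, ∀ v ∈ V, ¬ v ≡ r [MOD p]) →
    ∃ U ⊆ V, U.Nonempty ∧ ∀ u ∈ U, (1 / 4 - ε) * (#V : ℝ) ≤
      (#{u' ∈ U | Freq N ε (max u u' - min u u')} : ℝ) := by
  obtain ⟨K, hK, c, hc, h5⟩ := five_index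
  refine ⟨5 * K, c, hc, fun ε hε => ?_⟩
  obtain ⟨M₀, hM₀⟩ := clustersQ K ε hε
  obtain ⟨N₁, hN₁⟩ := h5 (ε / 2) (by linarith)
  -- large `N`
  have hlim : Tendsto (fun N : ℕ => (N : ℝ) ^ (ε / 2)) atTop atTop :=
    (tendsto_rpow_atTop (by linarith)).comp tendsto_natCast_atTop_atTop
  obtain ⟨N₂, hN₂⟩ := eventually_atTop.mp (hlim.eventually_gt_atTop (((5 * K : ℕ) : ℝ) ^ 2))
  refine ⟨max M₀ 1, max (max N₁ N₂) 1, fun N hN V hV hVR hVadm => ?_⟩
  have hNN1 : N₁ ≤ N := (le_max_left _ _).trans ((le_max_left _ _).trans hN)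
  have hNN2 : N₂ ≤ N := (le_max_right _ _).trans ((le_max_left _ _).trans hN)
  have hN1 : 1 ≤ N := (le_max_right _ _).trans hN
  have hNpos : (0 : ℝ) < N := by exact_mod_cast hN1
  by_contra hcon
  push Not at hcon
  obtain ⟨e, heV, hinj, hdeg⟩ := peel (fun u u' => Freq N ε (max u u' - min u u'))
    ((1 / 4 - ε) * (#V : ℝ)) V hcon
  have hn0 : 0 < #V := (le_max_right _ _).trans hV
  set B : ℕ → Finset ℕ := fun x => if x < #V then
    {y ∈ range (#V) | x < y ∧ Freq N ε (max (e x) (e y) - min (e x) (e y))} else ∅ with hB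
  have hBc : ∀ b, (#(B b) : ℝ) < (1 / 4 - ε) * (#V : ℕ) := by
    intro b
    by_cases hb : b < #V
    · simp only [hB, hb, if_true]
      exact hdeg b hb
    · simp only [hB, hb, if_false]
      have h1 := hdeg 0 hn0
      simp only [Finset.card_empty, Nat.cast_zero]
      exact lt_of_le_of_lt (Nat.cast_nonneg _) h1
  obtain ⟨X, hXc, hXM, hX⟩ := hM₀ (#V) ((le_max_left _ _).trans hV) B hBc
  set H : Fin 5 → Finset ℕ := fun i => (X i).image e with hH
  have hcard : ∀ i, #(H i) = K := fun i => by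
    rw [hH]; simp only
    rw [Finset.card_image_of_injOn, hXc]
    intro x hx y hy hxy
    exact hinj x (hXM i x hx) y (hXM i y hy) hxy
  have hHV : ∀ i, ∀ h ∈ H i, h ∈ V := by
    intro i h hh
    rw [hH] at hh
    simp only [Finset.mem_image] at hh
    obtain ⟨x, hx, rfl⟩ := hh
    exact heV x (hXM i x hx)
  have hdisj : ∀ i j, i ≠ j → Disjoint (H i) (H j) := by
    intro i j hij
    rw [Finset.disjoint_left]
    intro τ h1 h2
    rw [hH] at h1 h2
    simp only [Finset.mem_image] at h1 h2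
    obtain ⟨x, hx, rfl⟩ := h1
    obtain ⟨y, hy, hxy⟩ := h2
    have hxy' : y = x := hinj y (hXM j y hy) x (hXM i x hx) hxy
    subst hxy'
    rcases lt_or_gt_of_ne hij with h | h
    · exact lt_irrefl _ (hX i j h _ hx _ hy).1
    · exact lt_irrefl _ (hX j i h _ hy _ hx).1
  have hmain := hN₁ N hNN1 H hcard hdisj (adm_aux3 K H hcard V hHV hVadm)
    (fun i τ hτ => hVR τ (hHV i τ hτ))
  -- the covering
  set U : Finset ℕ := Finset.univ.biUnion X with hU
  have hUc : #U ≤ 5 * K := by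
    calc #U ≤ ∑ i : Fin 5, #(X i) := Finset.card_biUnion_le
      _ = ∑ i : Fin 5, K := Finset.sum_congr rfl (fun i _ => hXc i)
      _ = 5 * K := by simp
  set P : Finset (ℕ × ℕ) := (U ×ˢ U).filter (fun q => q.1 < q.2 ∧ q.2 < #V ∧
    q.2 ∉ B q.1) with hP
  have hPc : #P ≤ (5 * K) ^ 2 := by
    calc #P ≤ #(U ×ˢ U) := Finset.card_filter_le _ _
      _ = #U * #U := Finset.card_product _ _
      _ ≤ (5 * K) * (5 * K) := Nat.mul_le_mul hUc hUc
      _ = (5 * K) ^ 2 := by ring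
  set S : ℕ × ℕ → Set ℕ := fun q => {n : ℕ | n < N ∧ Nat.nth Nat.Prime (n + 1) =
    Nat.nth Nat.Prime n + (max (e q.1) (e q.2) - min (e q.1) (e q.2))} with hS
  have hcover : idx5 N H ⊆ ⋃ q ∈ P, S q := by
    rintro n ⟨hnN, a, i, j, hij, τ, hτ, τ', hτ', e1, e2⟩
    rw [hH] at hτ hτ'
    simp only [Finset.mem_image] at hτ hτ'
    obtain ⟨x, hx, rfl⟩ := hτ
    obtain ⟨y, hy, rfl⟩ := hτ'
    have hlt' : Nat.nth Nat.Prime n < Nat.nth Nat.Prime (n + 1) :=
      Nat.nth_strictMono Nat.infinite_setOfPred_prime (Nat.lt_succ_self n)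
    have hdxy : e x < e y := by omega
    have hxV := hXM i x hx
    have hyV := hXM j y hy
    simp only [Set.mem_iUnion]
    rcases lt_or_gt_of_ne hij with h | h
    · obtain ⟨hxy, hA'⟩ := hX i j h x hx y hy
      refine ⟨(x, y), ?_, ?_⟩
      · rw [hP, Finset.mem_filter, Finset.mem_product]
        refine ⟨⟨?_, ?_⟩, hxy, hyV, hA'⟩
        · exact Finset.mem_biUnion.mpr ⟨i, Finset.mem_univ _, hx⟩
        · exact Finset.mem_biUnion.mpr ⟨j, Finset.mem_univ _, hy⟩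
      · refine ⟨hnN, ?_⟩
        simp only
        rw [max_eq_right hdxy.le, min_eq_left hdxy.le]
        omega
    · obtain ⟨hxy, hA'⟩ := hX j i h y hy x hx
      refine ⟨(y, x), ?_, ?_⟩
      · rw [hP, Finset.mem_filter, Finset.mem_product]
        refine ⟨⟨?_, ?_⟩, hxy, hxV, hA'⟩
        · exact Finset.mem_biUnion.mpr ⟨j, Finset.mem_univ _, hy⟩
        · exact Finset.mem_biUnion.mpr ⟨i, Finset.mem_univ _, hx⟩
      · refine ⟨hnN, ?_⟩
        simp only
        rw [max_eq_left hdxy.le, min_eq_right hdxy.le]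
        omega
  have hfin : ∀ q, (S q).Finite := fun q => (Set.finite_Iio N).subset (fun n hn => hn.1)
  have hcount : ∀ q ∈ P, ((S q).ncard : ℝ) ≤ (N : ℝ) ^ (1 - ε) := by
    intro q hq
    rw [hP, Finset.mem_filter] at hq
    obtain ⟨_, hq1, hq2, hq3⟩ := hq
    have h1 : q.1 < #V := hq1.trans hq2
    simp only [hB, h1, if_true] at hq3
    rw [Finset.mem_filter, Finset.mem_range, not_and, not_and] at hq3
    have h2 := hq3 hq2 hq1
    unfold Freq at h2
    rw [not_le] at h2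
    exact h2.le
  have h1 : ((idx5 N H).ncard : ℝ) ≤ ∑ q ∈ P, ((S q).ncard : ℝ) := by
    have h2 : (idx5 N H).ncard ≤ (⋃ q ∈ P, S q).ncard := by
      have hfU : (⋃ q ∈ P, S q).Finite :=
        Set.Finite.biUnion (Finset.finite_toSet P) (fun q _ => hfin q)
      exact Set.ncard_le_ncard hcover hfU
    have h3 : (⋃ q ∈ P, S q).ncard ≤ ∑ q ∈ P, (S q).ncard := Finset.set_ncard_biUnion_le P S
    exact_mod_cast h2.trans h3
  have h2 : ∑ q ∈ P, ((S q).ncard : ℝ) ≤ ((5 * K : ℕ) : ℝ) ^ 2 * (N : ℝ) ^ (1 - ε) := by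
    calc ∑ q ∈ P, ((S q).ncard : ℝ) ≤ ∑ q ∈ P, (N : ℝ) ^ (1 - ε) := Finset.sum_le_sum hcount
      _ = #P * (N : ℝ) ^ (1 - ε) := by rw [Finset.sum_const, nsmul_eq_mul]
      _ ≤ _ := by
        apply mul_le_mul_of_nonneg_right _ (by positivity)
        exact_mod_cast hPc
  have h3 : (N : ℝ) ^ (1 - ε / 2) = (N : ℝ) ^ (ε / 2) * (N : ℝ) ^ (1 - ε) := by
    rw [← Real.rpow_add hNpos]; congr 1; ring
  have h4 := hN₂ N hNN2
  rw [h3] at hmain
  have h5' : (0 : ℝ) < (N : ℝ) ^ (1 - ε) := Real.rpow_pos_of_pos hNpos _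
  have h6 : (N : ℝ) ^ (ε / 2) * (N : ℝ) ^ (1 - ε) ≤
      ((5 * K : ℕ) : ℝ) ^ 2 * (N : ℝ) ^ (1 - ε) := hmain.trans (h1.trans h2)
  have h7 := le_of_mul_le_mul_right h6 h5'
  exact absurd h4 (not_lt.mpr h7)

end Pool.Agent.H21.QG2
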