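import Mathlib

/-!
Definitions for the weighted form of the quarter theorem.
-/

set_option autoImplicit false

open Finset

namespace Pool.Agent.H21.QG2

/-- the window of the integers `c + q k`, `c ∈ C`, `k < T` -/
def win (q T : ℕ) (C : Finset ℕ) : Finset ℕ := (C ×ˢ range T).image (fun p => p.1 + q * p.2)

open Classical in
/-- number of `1 ≤ t ≤ q T` with `G t` which lead from the class `c` to the class `c'` modulo `q` -/
noncomputable def cnt (q T : ℕ) (G : ℕ → Prop) (c c' : ℕ) : ℕ :=
  #{t ∈ Icc 1 (q * T) | G t ∧ (c + t) % q = c'}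

/-- the reduced residues modulo `Q` -/
def red (Q : ℕ) : Finset ℕ := {a ∈ range Q | Nat.Coprime a Q}

/-- number of residues `a mod Q` such that `a` and `a + t` are both coprime to `Q` -/
def pc (Q t : ℕ) : ℕ := #{a ∈ range Q | Nat.Coprime a Q ∧ Nat.Coprime (a + t) Q}

/-- the product of the primes between `7` and `z` -/
def Qz (z : ℕ) : ℕ := ∏ p ∈ (Icc 7 z).filter Nat.Prime, p

end Pool.Agent.H21.QG2
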