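import Pool.Agent.H21.QG2.SecondMoment

/-!
JOB QH-8 (about 250 lines): one seventh of the even integers.

`hw` is the weighted quarter theorem for one set `G` of integers (`G t` implies `t` even is not needed: odd `t` have
`pc Q t = 0` since `2 ∣ Q`). Let `Q = 30 Q'`, `Q' = Qz z`, `φ' = φ(Q')`, `B = φ'^2 / Q'`. For `t` with `t % 30 = s`,
`pc Q t = pc 30 s * pc Q' t`, `pc 30 s = g s`, where for even `s`: `g = 8` if `s = 0`; `6` if `3 ∣ s`, `¬ 5 ∣ s` (4 classes); `4` if
`5 ∣ s`, `¬ 3 ∣ s` (2 classes); `3` for the other 8 even classes (all by `decide`); `g = 0` for odd `s`.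
With `v = pc Q' t / B` and `K = 25/4`, `c = K / g`, for every `ρ > 0`: `g v ≤ K + g (v - c)^+ ≤ K + g (v - c + ρ)^2 / (4 ρ)`, because
`x ≤ (x + ρ)^2 / (4 ρ)` (and `0 ≤ ..`). Take `ρ = 6/25, 1/10, 57/100, 109/100` for `g = 8, 6, 4, 3`. Let
`Rf t = B g (v - c + ρ)^2 / (4 ρ)` for even `t`, `0` for odd `t`: periodic modulo `Q`, `≥ 0`, `pc Q t ≤ K B + Rf t` for even `t`.
Sum of `Rf` over a period: `t ↦ (t % 30, t % Q')` is a bijection; `∑ t' ∈ range Q', (v - c + ρ)^2 = Q' ((second moment) -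
2 (c - ρ) + (c - ρ)^2) ≤ Q' ((1 - c + ρ)^2 + 39/5000)` by `e2_bound`, `pc_sum` (mean of `v` is `1`). So it is
`≤ B Q' e15`, `e15 = 1·8·R8 + 4·6·R6 + 2·4·R4 + 8·3·R3 < 2.5618`, `R_g = ((1 - K/g + ρ)^2 + 39/5000)/(4 ρ)`.
Then `(1/4 - 1/2000) φ(Q)^2 (M/Q - 1) ≤ (1/4 - 1/2000) ∑_{t ≤ M} pc Q t ≤ ∑_{t ≤ M, G t} pc Q t ≤
K B #{t ≤ M | Even t ∧ G t} + (M/Q + 1) B Q' e15`, `φ(Q)^2 = 64 φ'^2 = 64 B Q'`. Divide by `K B`:
`# ≥ Q' ((16 - 64/2000)(M/Q - 1) - e15 (M/Q + 1)) / K = (M/30) (15.968 - e15)/K - Q' (15.968 + e15)/K ≥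
0.0715 M - 3 Q' ≥ M / 14` if `M ≥ 60000 Q'`.
-/

set_option autoImplicit false

open Finset Filter Topology

namespace Pool.Agent.H21.QG2

private lemma crt_sum7 (a b : ℕ) (h : Nat.Coprime a b) (ha : 0 < a) (hb : 0 < b)
    (f : ℕ → ℕ → ℝ) :
    ∑ t ∈ range (a * b), f (t % a) (t % b) = ∑ s ∈ range a, ∑ u ∈ range b, f s u := by
  rw [← Finset.sum_product' (range a) (range b) f]
  refine Finset.sum_bij (fun t _ => (t % a, t % b)) ?_ ?_ ?_ ?_
  · intro t _
    simp [Nat.mod_lt _ ha, Nat.mod_lt _ hb]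
  · intro t1 h1 t2 h2 h12
    rw [Prod.mk.injEq] at h12
    have h3 := (Nat.modEq_and_modEq_iff_modEq_mul h).1 ⟨h12.1, h12.2⟩
    rw [Finset.mem_range] at h1 h2
    exact Nat.ModEq.eq_of_lt_of_lt h3 h1 h2
  · rintro ⟨s, u⟩ hsu
    rw [Finset.mem_product, Finset.mem_range, Finset.mem_range] at hsu
    obtain ⟨x, hx1, hx2⟩ := Nat.chineseRemainder h s u
    refine ⟨x % (a * b), Finset.mem_range.2 (Nat.mod_lt _ (Nat.mul_pos ha hb)), ?_⟩
    simp only [Prod.mk.injEq]
    constructor
    · rw [Nat.mod_mod_of_dvd _ (Dvd.intro _ rfl)]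
      exact (show x % a = s % a from hx1).trans (Nat.mod_eq_of_lt hsu.1)
    · rw [Nat.mod_mod_of_dvd _ (Dvd.intro_left _ rfl)]
      exact (show x % b = u % b from hx2).trans (Nat.mod_eq_of_lt hsu.2)
  · intro t _
    rfl

private lemma cop30 (z : ℕ) : Nat.Coprime 30 (Qz z) := by
  unfold Qz
  apply Nat.Coprime.prod_right
  intro p hp
  rw [Finset.mem_filter, Finset.mem_Icc] at hp
  rw [Nat.coprime_comm, Nat.Prime.coprime_iff_not_dvd hp.2]
  intro h
  have h1 : p ∣ 2 * (3 * 5) := h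
  rw [hp.2.dvd_mul, hp.2.dvd_mul] at h1
  rcases h1 with h1 | h1 | h1
  · have := Nat.le_of_dvd (by norm_num) h1
    omega
  · have := Nat.le_of_dvd (by norm_num) h1
    omega
  · have := Nat.le_of_dvd (by norm_num) h1
    omega

private lemma Qz_pos (z : ℕ) : 0 < Qz z := by
  unfold Qz
  apply Finset.prod_pos
  intro p hp
  rw [Finset.mem_filter] at hp
  exact hp.2.pos

private lemma odd30 : ∀ s < 30, ¬ Even s → pc 30 s = 0 := by decide +kernel

private lemma even30 : ∀ s < 30, Even s → 0 < pc 30 s := by decide +kernel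

/-- the shift `ρ` -/
private noncomputable def rh (g : ℕ) : ℝ :=
  if g = 8 then 6 / 25 else if g = 6 then 1 / 10 else if g = 4 then 57 / 100 else 109 / 100

private lemma rh_pos (g : ℕ) : 0 < rh g := by
  unfold rh
  split_ifs <;> norm_num

/-- the contribution of a class -/
private noncomputable def hh (g : ℕ) : ℝ :=
  g / (4 * rh g) * ((1 - 25 / 4 / g + rh g) ^ 2 + 39 / 5000)

private lemma sum_hh : ∑ s ∈ range 30, (if Even s then hh (pc 30 s) else 0) ≤ 25618 / 10000 := by
  have e0 : pc 30 0 = 8 := by decide +kernel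
  have e2 : pc 30 2 = 3 := by decide +kernel
  have e4 : pc 30 4 = 3 := by decide +kernel
  have e6 : pc 30 6 = 6 := by decide +kernel
  have e8 : pc 30 8 = 3 := by decide +kernel
  have e10 : pc 30 10 = 4 := by decide +kernel
  have e12 : pc 30 12 = 6 := by decide +kernel
  have e14 : pc 30 14 = 3 := by decide +kernel
  have e16 : pc 30 16 = 3 := by decide +kernel
  have e18 : pc 30 18 = 6 := by decide +kernel
  have e20 : pc 30 20 = 4 := by decide +kernel
  have e22 : pc 30 22 = 3 := by decide +kernel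
  have e24 : pc 30 24 = 6 := by decide +kernel
  have e26 : pc 30 26 = 3 := by decide +kernel
  have e28 : pc 30 28 = 3 := by decide +kernel
  have h0 : ∑ s ∈ range 30, (if Even s then hh (pc 30 s) else 0) =
      hh 8 + 4 * hh 6 + 2 * hh 4 + 8 * hh 3 := by
    simp only [Finset.sum_range_succ, Finset.sum_range_zero]
    rw [if_pos (by decide : Even 0), if_neg (by decide : ¬ Even 1), if_pos (by decide : Even 2),
      if_neg (by decide : ¬ Even 3), if_pos (by decide : Even 4), if_neg (by decide : ¬ Even 5),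
      if_pos (by decide : Even 6), if_neg (by decide : ¬ Even 7), if_pos (by decide : Even 8),
      if_neg (by decide : ¬ Even 9), if_pos (by decide : Even 10),
      if_neg (by decide : ¬ Even 11), if_pos (by decide : Even 12),
      if_neg (by decide : ¬ Even 13), if_pos (by decide : Even 14),
      if_neg (by decide : ¬ Even 15), if_pos (by decide : Even 16),
      if_neg (by decide : ¬ Even 17), if_pos (by decide : Even 18),
      if_neg (by decide : ¬ Even 19), if_pos (by decide : Even 20),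
      if_neg (by decide : ¬ Even 21), if_pos (by decide : Even 22),
      if_neg (by decide : ¬ Even 23), if_pos (by decide : Even 24),
      if_neg (by decide : ¬ Even 25), if_pos (by decide : Even 26),
      if_neg (by decide : ¬ Even 27), if_pos (by decide : Even 28),
      if_neg (by decide : ¬ Even 29), e0, e2, e4, e6, e8, e10, e12, e14, e16, e18, e20, e22,
      e24, e26, e28]
    ring
  rw [h0]
  unfold hh rh
  norm_num

open Classical in
theorem seventh (z : ℕ) (M : ℕ) (hM : 60000 * Qz z ≤ M) (G : ℕ → Prop)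
    (hw : (1 / 4 - 1 / 2000) * ∑ t ∈ Icc 1 M, (pc (30 * Qz z) t : ℝ) ≤
      ∑ t ∈ Icc 1 M with G t, (pc (30 * Qz z) t : ℝ)) :
    (M : ℝ) / 14 ≤ (#{t ∈ Icc 1 M | Even t ∧ G t} : ℝ) := by
  have hcop := cop30 z
  have hQpos := Qz_pos z
  have hle := e2_bound z
  have hsum := pc_sum (Qz z) hQpos
  have hsumQ := pc_sum (30 * Qz z) (by omega)
  have htot : Nat.totient (30 * Qz z) = 8 * Nat.totient (Qz z) := by
    rw [Nat.totient_mul hcop]
    congr 1
  have hfpos : 0 < Nat.totient (Qz z) := Nat.totient_pos.2 hQpos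
  have hpcmul : ∀ t, pc (30 * Qz z) t = pc 30 (t % 30) * pc (Qz z) (t % Qz z) := by
    intro t
    rw [pc_mul 30 (Qz z) t hcop, pc_mod, pc_mod]
  generalize hq : Qz z = q at *
  set f : ℝ := (Nat.totient q : ℝ) with hf
  have hfp : 0 < f := by rw [hf]; exact_mod_cast hfpos
  have hqp : (0 : ℝ) < q := by exact_mod_cast hQpos
  set B : ℝ := f ^ 2 / q with hB
  have hBp : 0 < B := by positivity
  have hBq : B * q = f ^ 2 := by rw [hB]; field_simp
  -- the function `F`
  set F : ℕ → ℕ → ℝ := fun s u => if Even s then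
    (pc 30 s : ℝ) / (4 * rh (pc 30 s)) * ((pc q u : ℝ) / B - 25 / 4 / (pc 30 s : ℝ) +
      rh (pc 30 s)) ^ 2 else 0 with hF
  have hF0 : ∀ s u, 0 ≤ F s u := by
    intro s u
    simp only [hF]
    split_ifs
    · have := rh_pos (pc 30 s)
      positivity
    · exact le_rfl
  -- mean and second moment
  have hmean : ∑ u ∈ range q, (pc q u : ℝ) = B * q := by
    rw [hBq, hf]
    exact_mod_cast hsum
  have hsec : ∑ u ∈ range q, (pc q u : ℝ) ^ 2 ≤ (1 + 39 / 5000) * (B ^ 2 * q) := by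
    have h1 : (q : ℝ) * ∑ u ∈ range q, ((pc q u : ℕ) : ℝ) ^ 2 ≤
        q * ((1 + 39 / 5000) * (B ^ 2 * q)) := by
      refine hle.trans (le_of_eq ?_)
      have : f ^ 4 = (B * q) ^ 2 := by rw [hBq]; ring
      rw [this]; ring
    exact le_of_mul_le_mul_left h1 hqp
  have hsq : ∀ e : ℝ, ∑ u ∈ range q, ((pc q u : ℝ) / B + e) ^ 2 ≤
      q * ((1 + e) ^ 2 + 39 / 5000) := by
    intro e
    have h1 : ∑ u ∈ range q, ((pc q u : ℝ) / B + e) ^ 2 =
        (∑ u ∈ range q, (pc q u : ℝ) ^ 2) / B ^ 2 + 2 * e / B * (∑ u ∈ range q, (pc q u : ℝ)) +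
          q * e ^ 2 := by
      rw [Finset.sum_div, Finset.mul_sum, ← Finset.sum_add_distrib]
      have h2 : (q : ℝ) * e ^ 2 = ∑ u ∈ range q, e ^ 2 := by simp
      rw [h2, ← Finset.sum_add_distrib]
      apply Finset.sum_congr rfl
      intro u _
      field_simp
      ring
    rw [h1, hmean]
    have h3 : (∑ u ∈ range q, (pc q u : ℝ) ^ 2) / B ^ 2 ≤ (1 + 39 / 5000) * q := by
      rw [div_le_iff₀ (by positivity)]
      calc _ ≤ _ := hsec
        _ = _ := by ring
    have h4 : 2 * e / B * (B * q) = 2 * e * q := by field_simp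
    rw [h4]
    nlinarith [h3]
  have hFsum : ∑ t ∈ range (30 * q), F (t % 30) (t % q) ≤ q * (25618 / 10000) := by
    rw [crt_sum7 30 q hcop (by norm_num) hQpos F]
    calc ∑ s ∈ range 30, ∑ u ∈ range q, F s u
        ≤ ∑ s ∈ range 30, q * (if Even s then hh (pc 30 s) else 0) := by
          apply Finset.sum_le_sum
          intro s _
          simp only [hF]
          split_ifs with hs
          · rw [← Finset.mul_sum]
            have h1 : ∑ u ∈ range q, ((pc q u : ℝ) / B - 25 / 4 / (pc 30 s : ℝ) +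
                rh (pc 30 s)) ^ 2 = ∑ u ∈ range q, ((pc q u : ℝ) / B +
                  (- (25 / 4 / (pc 30 s : ℝ)) + rh (pc 30 s))) ^ 2 := by
              apply Finset.sum_congr rfl
              intro u _
              ring
            rw [h1]
            have h2 := hsq (- (25 / 4 / (pc 30 s : ℝ)) + rh (pc 30 s))
            have h3 : (0 : ℝ) ≤ (pc 30 s : ℝ) / (4 * rh (pc 30 s)) := by
              have := rh_pos (pc 30 s)
              positivity
            calc _ ≤ (pc 30 s : ℝ) / (4 * rh (pc 30 s)) * (q * ((1 +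
                  (- (25 / 4 / (pc 30 s : ℝ)) + rh (pc 30 s))) ^ 2 + 39 / 5000)) :=
                  mul_le_mul_of_nonneg_left h2 h3
              _ = _ := by unfold hh; ring
          · simp
      _ = q * ∑ s ∈ range 30, (if Even s then hh (pc 30 s) else 0) := by rw [Finset.mul_sum]
      _ ≤ q * (25618 / 10000) := mul_le_mul_of_nonneg_left sum_hh hqp.le
  -- pointwise bound
  have hpt : ∀ t, Even t → (pc (30 * q) t : ℝ) ≤ 25 / 4 * B + B * F (t % 30) (t % q) := by
    intro t ht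
    rw [hpcmul t]
    have hs : Even (t % 30) := by
      rw [Nat.even_iff] at ht ⊢
      omega
    have hg : 0 < pc 30 (t % 30) := even30 _ (Nat.mod_lt _ (by norm_num)) hs
    simp only [hF, if_pos hs]
    have hr := rh_pos (pc 30 (t % 30))
    generalize rh (pc 30 (t % 30)) = r at *
    have hg' : (0 : ℝ) < (pc 30 (t % 30) : ℝ) := by exact_mod_cast hg
    push_cast
    generalize (pc 30 (t % 30) : ℝ) = g at *
    generalize (pc q (t % q) : ℝ) = w at *
    have h1 : 4 * r * (w / B - 25 / 4 / g) ≤ (w / B - 25 / 4 / g + r) ^ 2 := by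
      nlinarith [sq_nonneg (w / B - 25 / 4 / g - r)]
    have h2 : g * w = 25 / 4 * B + B * (g / (4 * r) * (4 * r * (w / B - 25 / 4 / g))) := by
      field_simp
      ring
    rw [h2]
    have h3 : 0 ≤ g / (4 * r) := by positivity
    have h4 := mul_le_mul_of_nonneg_left h1 h3
    have h5 := mul_le_mul_of_nonneg_left h4 hBp.le
    linarith
  -- sums over `[1, M]`
  have hqQ : ((30 * q : ℕ) : ℝ) = 30 * q := by push_cast; ring
  have hup : ∑ t ∈ Icc 1 M with G t, (pc (30 * q) t : ℝ) ≤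
      25 / 4 * B * (#{t ∈ Icc 1 M | Even t ∧ G t} : ℝ) +
        B * ((M / (30 * q) + 1) * (q * (25618 / 10000))) := by
    have h1 : ∑ t ∈ Icc 1 M with G t, (pc (30 * q) t : ℝ) =
        ∑ t ∈ Icc 1 M with (Even t ∧ G t), (pc (30 * q) t : ℝ) := by
      symm
      apply Finset.sum_subset
      · intro t ht
        rw [Finset.mem_filter] at ht ⊢
        exact ⟨ht.1, ht.2.2⟩
      · intro t ht ht'
        rw [Finset.mem_filter] at ht ht'
        have hne : ¬ Even t := fun h => ht' ⟨ht.1, h, ht.2⟩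
        have hs : ¬ Even (t % 30) := by
          rw [Nat.even_iff] at hne ⊢
          omega
        rw [hpcmul t, odd30 _ (Nat.mod_lt _ (by norm_num)) hs]
        simp
    rw [h1]
    have h2 : ∑ t ∈ Icc 1 M with (Even t ∧ G t), (pc (30 * q) t : ℝ) ≤
        ∑ t ∈ Icc 1 M with (Even t ∧ G t), (25 / 4 * B + B * F (t % 30) (t % q)) := by
      apply Finset.sum_le_sum
      intro t ht
      rw [Finset.mem_filter] at ht
      exact hpt t ht.2.1
    refine h2.trans ?_
    rw [Finset.sum_add_distrib, Finset.sum_const, nsmul_eq_mul, ← Finset.mul_sum]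
    have h3 : ∑ t ∈ Icc 1 M with (Even t ∧ G t), F (t % 30) (t % q) ≤
        ∑ t ∈ Icc 1 M, F (t % 30) (t % q) :=
      Finset.sum_le_sum_of_subset_of_nonneg (Finset.filter_subset _ _)
        (fun t _ _ => hF0 _ _)
    have h4 : ∑ t ∈ Icc 1 M, F (t % 30) (t % q) ≤
        ((M : ℝ) / (30 * q : ℕ) + 1) * ∑ t ∈ range (30 * q), F (t % 30) (t % q) := by
      apply sum_periodic_le (30 * q) (by omega) (fun t => F (t % 30) (t % q))
      · intro t
        rw [Nat.add_mul_mod_self_left, Nat.add_mul_mod_self_right]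
      · intro t
        exact hF0 _ _
    rw [hqQ] at h4
    have h5 : (0 : ℝ) ≤ (M : ℝ) / (30 * q) + 1 := by positivity
    have h6 := mul_le_mul_of_nonneg_left hFsum h5
    have h7 := mul_le_mul_of_nonneg_left (h3.trans (h4.trans h6)) hBp.le
    linarith
  have hlow : ((M : ℝ) / (30 * q) - 1) * (64 * (B * q)) ≤ ∑ t ∈ Icc 1 M, (pc (30 * q) t : ℝ) := by
    have h1 := sum_periodic_ge (30 * q) (by omega) (fun t => (pc (30 * q) t : ℝ))
      (fun t => by simp only [pc_add_right]) (fun t => Nat.cast_nonneg _) M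
    have h2 : ∑ t ∈ range (30 * q), (pc (30 * q) t : ℝ) = 64 * (B * q) := by
      have h3 : ((∑ t ∈ range (30 * q), pc (30 * q) t : ℕ) : ℝ) =
          ((Nat.totient (30 * q) ^ 2 : ℕ) : ℝ) := by rw [hsumQ]
      push_cast at h3
      rw [h3, htot, hBq, hf]
      push_cast
      ring
    rw [h2, hqQ] at h1
    exact h1
  set n : ℝ := (#{t ∈ Icc 1 M | Even t ∧ G t} : ℝ) with hn
  have h1 : (1 / 4 - 1 / 2000) * (((M : ℝ) / (30 * q) - 1) * (64 * (B * q))) ≤
      25 / 4 * B * n + B * ((M / (30 * q) + 1) * (q * (25618 / 10000))) :=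
    (mul_le_mul_of_nonneg_left hlow (by norm_num)).trans (hw.trans hup)
  have h2 : B * ((1 / 4 - 1 / 2000) * (((M : ℝ) / (30 * q) - 1) * (64 * q))) ≤
      B * (25 / 4 * n + (M / (30 * q) + 1) * (q * (25618 / 10000))) := by
    calc _ = (1 / 4 - 1 / 2000) * (((M : ℝ) / (30 * q) - 1) * (64 * (B * q))) := by ring
      _ ≤ _ := h1
      _ = _ := by ring
  have h3 := le_of_mul_le_mul_left h2 hBp
  have h4 : (M : ℝ) / (30 * q) * q = M / 30 := by field_simp
  have h5 : (60000 : ℝ) * q ≤ M := by exact_mod_cast hM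
  nlinarith [h3, h4, h5]

end Pool.Agent.H21.QG2
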