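import Pool.Agent.H21.QG2.Weighted
import Pool.Agent.H21.QG2.Seventh

/-!
Assembly: one seventh of the even integers, a quarter of the multiples of `d`, a quarter of all
integers with the Hardy–Littlewood weight, and the general core statement.
-/

set_option autoImplicit false

open Finset Filter Topology

namespace Pool.Agent.H21.QG2

lemma freq_mono {N : ℕ} (hN : 1 ≤ N) {ε ε' : ℝ} (h : ε' ≤ ε) {t : ℕ} (ht : Freq N ε' t) :
    Freq N ε t := by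
  unfold Freq at *
  refine le_trans (Real.rpow_le_rpow_of_exponent_le (by exact_mod_cast hN) (by linarith)) ht

/-- the constant in `quarter_core` can be lowered -/
theorem multiples_of_core (P : ℕ) (c ε : ℝ) (n₀ N₀ : ℕ)
    (hcore : ∀ N : ℕ, N₀ ≤ N → ∀ V : Finset ℕ, n₀ ≤ #V → (∀ v ∈ V, (v : ℝ) ≤ c * RR N) →
      (∀ p : ℕ, p.Prime → p ≤ P → ∃ r, ∀ v ∈ V, ¬ v ≡ r [MOD p]) →
      ∃ U ⊆ V, U.Nonempty ∧ ∀ u ∈ U, (1 / 4 - ε) * (#V : ℝ) ≤
        (Set.ncard {u' : ℕ | u' ∈ U ∧ Freq N ε (max u u' - min u u')} : ℝ))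
    (N : ℕ) (hN : N₀ ≤ N) (hN1 : 1 ≤ N) (d : ℕ) (hd : 0 < d)
    (hdP : ∀ p : ℕ, p.Prime → p ≤ P → p ∣ d) (M : ℕ) (hM : n₀ ≤ M) (hdM : (d : ℝ) * M ≤ c * RR N) :
    (1 / 4 - ε) * M ≤ (Set.ncard {m : ℕ | 1 ≤ m ∧ m ≤ M ∧ Freq N ε (d * m)} : ℝ) := by
  classical
  by_cases hε : 1 / 4 - ε < 0
  · exact (mul_nonpos_of_nonpos_of_nonneg hε.le (Nat.cast_nonneg _)).trans (Nat.cast_nonneg _)
  push Not at hε
  have hinj : Function.Injective (fun x : ℕ => d * x) := fun a b hab =>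
    Nat.eq_of_mul_eq_mul_left hd hab
  set V : Finset ℕ := (range (M + 1)).image (fun x => d * x) with hV
  have hVc : #V = M + 1 := by
    rw [hV, Finset.card_image_of_injective _ hinj, Finset.card_range]
  obtain ⟨U, hUV, hUne, hU⟩ := hcore N hN V (by omega) (fun v hv => by
    rw [hV, Finset.mem_image] at hv
    obtain ⟨x, hx, rfl⟩ := hv
    rw [Finset.mem_range] at hx
    have h1 : (x : ℝ) ≤ M := by exact_mod_cast (by omega : x ≤ M)
    push_cast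
    exact (mul_le_mul_of_nonneg_left h1 (Nat.cast_nonneg d)).trans hdM) (fun p hp hpP => by
      refine ⟨1, fun v hv hcon => ?_⟩
      rw [hV, Finset.mem_image] at hv
      obtain ⟨x, _, rfl⟩ := hv
      have h1 : p ∣ d * x := Dvd.dvd.mul_right (hdP p hp hpP) x
      have h2 : 0 ≡ 1 [MOD p] := (Nat.modEq_zero_iff_dvd.mpr h1).symm.trans hcon
      have h3 : p ∣ 1 := Nat.modEq_zero_iff_dvd.mp h2.symm
      exact hp.one_lt.ne' (Nat.dvd_one.mp h3))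
  set u := U.min' hUne with hu
  have huU : u ∈ U := Finset.min'_mem _ _
  have h1 := hU u huU
  obtain ⟨a, haM, hau⟩ := Finset.mem_image.1 (hUV huU)
  have hfinm : {m : ℕ | 1 ≤ m ∧ m ≤ M ∧ Freq N ε (d * m)}.Finite :=
    (Set.finite_Iic M).subset (fun m hm => hm.2.1)
  have h2 : Set.ncard {u' : ℕ | u' ∈ U ∧ Freq N ε (max u u' - min u u')} ≤
      Set.ncard {m : ℕ | 1 ≤ m ∧ m ≤ M ∧ Freq N ε (d * m)} := by
    apply Set.ncard_le_ncard_of_injOn (fun u' => u' / d - a) _ _ hfinm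
    · rintro u' ⟨hu'U, hfr⟩
      obtain ⟨b, hbM, hbu⟩ := Finset.mem_image.1 (hUV hu'U)
      rw [Finset.mem_range] at hbM haM
      have hle : u ≤ u' := Finset.min'_le _ _ hu'U
      have hab : a ≤ b := by
        rw [← hau, ← hbu] at hle
        exact Nat.le_of_mul_le_mul_left hle hd
      have hdb : u' / d = b := by rw [← hbu]; exact Nat.mul_div_cancel_left b hd
      have hdiff : max u u' - min u u' = d * (b - a) := by
        rw [max_eq_right hle, min_eq_left hle, ← hau, ← hbu, Nat.mul_sub]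
      rw [hdiff] at hfr
      simp only [Set.mem_ofPred_eq, hdb]
      refine ⟨?_, by omega, hfr⟩
      by_contra hcon
      have h0 : b - a = 0 := by omega
      rw [h0, Nat.mul_zero] at hfr
      exact not_freq_zero N hN1 ε hfr
    · rintro x ⟨hxU, _⟩ y ⟨hyU, _⟩ hxy
      obtain ⟨b, hbM, hbx⟩ := Finset.mem_image.1 (hUV hxU)
      obtain ⟨b', hbM', hby⟩ := Finset.mem_image.1 (hUV hyU)
      have hle1 : u ≤ x := Finset.min'_le _ _ hxU
      have hle2 : u ≤ y := Finset.min'_le _ _ hyU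
      have hab1 : a ≤ b := by
        rw [← hau, ← hbx] at hle1
        exact Nat.le_of_mul_le_mul_left hle1 hd
      have hab2 : a ≤ b' := by
        rw [← hau, ← hby] at hle2
        exact Nat.le_of_mul_le_mul_left hle2 hd
      simp only at hxy
      rw [← hbx, ← hby, Nat.mul_div_cancel_left b hd, Nat.mul_div_cancel_left b' hd] at hxy
      rw [← hbx, ← hby]
      congr 1
      omega
  have h3 : (1 / 4 - ε) * (M : ℝ) ≤ (1 / 4 - ε) * (#V : ℝ) := by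
    apply mul_le_mul_of_nonneg_left _ hε
    rw [hVc]; push_cast; linarith
  exact h3.trans (h1.trans (by exact_mod_cast h2))

lemma prime_dvd_thirty_Qz (z : ℕ) (hz : 7 ≤ z) (p : ℕ) (hp : p.Prime) (hpz : p ≤ z) :
    p ∣ 30 * Qz z := by
  by_cases h7 : 7 ≤ p
  · apply Dvd.dvd.mul_left
    unfold Qz
    exact Finset.dvd_prod_of_mem (fun p => p)
      (Finset.mem_filter.2 ⟨Finset.mem_Icc.2 ⟨h7, hpz⟩, hp⟩)
  · have h2 := hp.two_le
    apply Dvd.dvd.mul_right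
    interval_cases p
    · decide
    · decide
    · exact absurd hp (by decide)
    · decide
    · exact absurd hp (by decide)

lemma Qz_pos (z : ℕ) : 0 < Qz z := by
  unfold Qz
  exact Finset.prod_pos (fun p hp => (Finset.mem_filter.1 hp).2.pos)

open Classical in
theorem main : ∃ P : ℕ, ∃ c : ℝ, 0 < c ∧
    (∀ ε : ℝ, 0 < ε → ∃ M₀ N₀ : ℕ, ∀ N : ℕ, N₀ ≤ N → ∀ M : ℕ, M₀ ≤ M → (M : ℝ) ≤ c * RR N →
      (M : ℝ) / 14 ≤ (#{t ∈ Icc 1 M | Even t ∧ Freq N ε t} : ℝ)) ∧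
    (∀ ε : ℝ, 0 < ε → ∃ L : ℕ, ∀ Q : ℕ, 0 < Q → (∀ p : ℕ, p.Prime → p ≤ L → p ∣ Q) →
      ∃ M₀ N₀ : ℕ, ∀ N : ℕ, N₀ ≤ N → ∀ M : ℕ, M₀ ≤ M → (M : ℝ) ≤ c * RR N →
      (1 / 4 - ε) * ∑ t ∈ Icc 1 M, (pc Q t : ℝ) ≤
        ∑ t ∈ Icc 1 M with Freq N ε t, (pc Q t : ℝ)) ∧
    (∀ ε : ℝ, 0 < ε → ∃ M₀ N₀ : ℕ, ∀ N : ℕ, N₀ ≤ N → ∀ d : ℕ, 0 < d →
      (∀ p : ℕ, p.Prime → p ≤ P → p ∣ d) → ∀ M : ℕ, M₀ ≤ M → (d : ℝ) * M ≤ c * RR N →
      (1 / 4 - ε) * M ≤ (#{m ∈ Icc 1 M | Freq N ε (d * m)} : ℝ)) ∧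
    (∀ ε : ℝ, 0 < ε → ∃ n₀ N₀ : ℕ,
      ∀ N : ℕ, N₀ ≤ N → ∀ V : Finset ℕ, n₀ ≤ #V → (∀ v ∈ V, (v : ℝ) ≤ c * RR N) →
      (∀ p : ℕ, p.Prime → p ≤ P → ∃ r, ∀ v ∈ V, ¬ v ≡ r [MOD p]) →
      ∃ U ⊆ V, U.Nonempty ∧ ∀ u ∈ U, (1 / 4 - ε) * (#V : ℝ) ≤
        (#{u' ∈ U | Freq N ε (max u u' - min u u')} : ℝ)) := by
  obtain ⟨P, c, hc, hcore, hw⟩ := weighted
  refine ⟨P, c, hc, fun ε hε => ?_, hw, fun ε hε => ?_, hcore⟩
  · obtain ⟨L, hL⟩ := hw (min ε (1 / 2000)) (lt_min hε (by norm_num))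
    set z := max L 7 with hz
    obtain ⟨M₀, N₀, hMN⟩ := hL (30 * Qz z) (Nat.mul_pos (by norm_num) (Qz_pos z))
      (fun p hp hpL => prime_dvd_thirty_Qz z (le_max_right _ _) p hp (hpL.trans (le_max_left _ _)))
    refine ⟨max M₀ (60000 * Qz z), max N₀ 1, fun N hN M hM hMR => ?_⟩
    have hN0 : N₀ ≤ N := (le_max_left _ _).trans hN
    have hN1 : 1 ≤ N := (le_max_right _ _).trans hN
    have h1 := hMN N hN0 M ((le_max_left _ _).trans hM) hMR
    have h2 := seventh z M ((le_max_right _ _).trans hM) (Freq N (min ε (1 / 2000))) (by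
      refine le_trans ?_ h1
      apply mul_le_mul_of_nonneg_right _ (Finset.sum_nonneg (fun t _ => Nat.cast_nonneg _))
      have := min_le_right ε (1 / 2000)
      linarith)
    refine h2.trans ?_
    have h3 : #{t ∈ Icc 1 M | Even t ∧ Freq N (min ε (1 / 2000)) t} ≤
        #{t ∈ Icc 1 M | Even t ∧ Freq N ε t} := by
      apply Finset.card_le_card
      intro t ht
      rw [Finset.mem_filter] at ht ⊢
      exact ⟨ht.1, ht.2.1, freq_mono hN1 (min_le_left _ _) ht.2.2⟩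
    exact_mod_cast h3
  · obtain ⟨n₀, N₀, h⟩ := hcore ε hε
    refine ⟨n₀, max N₀ 1, fun N hN d hd hdP M hM hdM => ?_⟩
    have hN0 : N₀ ≤ N := (le_max_left _ _).trans hN
    have hN1 : 1 ≤ N := (le_max_right _ _).trans hN
    have h1 := multiples_of_core P c ε n₀ N₀ (fun N hN V hV hVR hVadm => by
      obtain ⟨U, hUV, hUne, hU⟩ := h N hN V hV hVR hVadm
      refine ⟨U, hUV, hUne, fun u hu => (hU u hu).trans (le_of_eq ?_)⟩
      norm_cast
      rw [← Set.ncard_coe_finset]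
      congr 1
      ext x
      simp) N hN0 hN1 d hd hdP M hM hdM
    refine h1.trans (le_of_eq ?_)
    norm_cast
    rw [← Set.ncard_coe_finset]
    congr 1
    ext x
    simp [and_assoc]

end Pool.Agent.H21.QG2
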