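import Pool.Agent.H21.QG2.Final3

/-!
The even integers that are differences of consecutive primes infinitely often: lower density.
-/

set_option autoImplicit false

open Finset Filter Topology

namespace Pool.Agent.H21.QG2

open Pool.Agent.H21.QG Pool.Agent.H16

lemma RR_eq (N : ℕ) : RR N = RS (Real.log N) := by
  unfold RR RS
  rfl

lemma tendsto_RR : Tendsto RR atTop atTop := by
  have h : Tendsto (fun N : ℕ => RS (Real.log N)) atTop atTop :=
    tendsto_RS.comp (Real.tendsto_log_atTop.comp tendsto_natCast_atTop_atTop)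
  exact h.congr (fun N => (RR_eq N).symm)

open Classical in
theorem polignac (c : ℝ) (hc : 0 < c) (M₀ N₀ : ℕ) (h : ∀ N : ℕ, N₀ ≤ N → ∀ M : ℕ, M₀ ≤ M →
    (M : ℝ) ≤ c * RR N → (M : ℝ) / 14 ≤ (#{t ∈ Icc 1 M | Even t ∧ Freq N (1 / 2) t} : ℝ))
    (M : ℕ) (hM : M₀ ≤ M) :
    (M : ℝ) / 14 ≤ (#{t ∈ Icc 1 M | Even t ∧
      {n : ℕ | Nat.nth Nat.Prime (n + 1) = Nat.nth Nat.Prime n + t}.Infinite} : ℝ) := by
  set S : ℕ → Set ℕ := fun t => {n : ℕ | Nat.nth Nat.Prime (n + 1) = Nat.nth Nat.Prime n + t}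
    with hS
  set B : ℕ := ∑ t ∈ Icc 1 M, (S t).ncard with hB
  have h1 : ∀ᶠ N : ℕ in atTop, (M : ℝ) ≤ c * RR N := by
    have := (tendsto_RR.const_mul_atTop hc).eventually_ge_atTop (M : ℝ)
    exact this
  have h2 : ∀ᶠ N : ℕ in atTop, (B : ℝ) < (N : ℝ) ^ (1 - 1 / 2 : ℝ) :=
    ((tendsto_rpow_atTop (by norm_num)).comp tendsto_natCast_atTop_atTop).eventually_gt_atTop _
  obtain ⟨N, hN1, hN2, hN3⟩ := (h1.and (h2.and (eventually_ge_atTop N₀))).exists
  refine (h N hN3 M hM hN1).trans ?_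
  norm_cast
  apply Finset.card_le_card
  intro t ht
  rw [Finset.mem_filter] at ht ⊢
  obtain ⟨htM, hte, htf⟩ := ht
  refine ⟨htM, hte, ?_⟩
  by_contra hfin
  rw [Set.not_infinite] at hfin
  have h3 : occ N t ≤ (S t).ncard := by
    unfold occ
    exact Set.ncard_le_ncard (fun n hn => hn.2) hfin
  have h4 : (S t).ncard ≤ B := Finset.single_le_sum (f := fun t => (S t).ncard)
    (fun _ _ => Nat.zero_le _) htM
  unfold Freq at htf
  have h5 : (occ N t : ℝ) ≤ B := by exact_mod_cast h3.trans h4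
  linarith

end Pool.Agent.H21.QG2
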