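import Pool.Agent.H21.QG2.Defs

/-!
JOB QH-5b: multiplicativity of `pc` (Chinese remainder theorem) and the double count `sum_cnt`.
-/

set_option autoImplicit false

open Finset

namespace Pool.Agent.H21.QG2

theorem coprime_mod_iff (Q a : ℕ) : Nat.Coprime (a % Q) Q ↔ Nat.Coprime a Q := by
  unfold Nat.Coprime
  rw [(Nat.mod_modEq a Q).gcd_eq]

theorem coprime_mod_add_iff (Q a t : ℕ) : Nat.Coprime (a % Q + t) Q ↔ Nat.Coprime (a + t) Q := by
  unfold Nat.Coprime
  rw [((Nat.mod_modEq a Q).add_right t).gcd_eq]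

theorem pc_mul (Q₁ Q₂ t : ℕ) (h : Nat.Coprime Q₁ Q₂) : pc (Q₁ * Q₂) t = pc Q₁ t * pc Q₂ t := by
  rcases Nat.eq_zero_or_pos Q₁ with rfl | h1
  · simp [pc]
  rcases Nat.eq_zero_or_pos Q₂ with rfl | h2
  · simp [pc]
  unfold pc
  rw [← card_product]
  refine card_nbij (fun a => (a % Q₁, a % Q₂)) ?_ ?_ ?_
  · intro a ha
    simp only [coe_filter, mem_range, Set.mem_ofPred_eq, Nat.coprime_mul_iff_right] at ha
    simp only [coe_product, coe_filter, mem_range, Set.mem_prod, Set.mem_ofPred_eq,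
      coprime_mod_iff, coprime_mod_add_iff]
    exact ⟨⟨Nat.mod_lt _ h1, ha.2.1.1, ha.2.2.1⟩, ⟨Nat.mod_lt _ h2, ha.2.1.2, ha.2.2.2⟩⟩
  · intro s hs t' ht hst
    simp only [coe_filter, mem_range, Set.mem_ofPred_eq] at hs ht
    simp only [Prod.mk.injEq] at hst
    have hm : s ≡ t' [MOD Q₁ * Q₂] := (Nat.modEq_and_modEq_iff_modEq_mul h).1 ⟨hst.1, hst.2⟩
    exact Nat.ModEq.eq_of_lt_of_lt hm hs.1 ht.1
  · rintro ⟨a, b⟩ hab
    simp only [coe_product, coe_filter, mem_range, Set.mem_prod, Set.mem_ofPred_eq] at hab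
    have hc := (Nat.chineseRemainder h a b).2
    have e1 : (Nat.chineseRemainder h a b : ℕ) % Q₁ = a := by
      have := hc.1
      unfold Nat.ModEq at this
      rw [this, Nat.mod_eq_of_lt hab.1.1]
    have e2 : (Nat.chineseRemainder h a b : ℕ) % Q₂ = b := by
      have := hc.2
      unfold Nat.ModEq at this
      rw [this, Nat.mod_eq_of_lt hab.2.1]
    refine ⟨Nat.chineseRemainder h a b, ?_, ?_⟩
    · simp only [coe_filter, mem_range, Set.mem_ofPred_eq, Nat.coprime_mul_iff_right]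
      refine ⟨Nat.chineseRemainder_lt_mul h a b h1.ne' h2.ne', ⟨?_, ?_⟩, ⟨?_, ?_⟩⟩
      · rw [← coprime_mod_iff, e1]; exact hab.1.2.1
      · rw [← coprime_mod_iff, e2]; exact hab.2.2.1
      · rw [← coprime_mod_add_iff, e1]; exact hab.1.2.2
      · rw [← coprime_mod_add_iff, e2]; exact hab.2.2.2
    · simp only [Prod.mk.injEq]
      exact ⟨e1, e2⟩

open Classical in
theorem sum_cnt (Q T : ℕ) (hQ : 0 < Q) (G : ℕ → Prop) :
    ∑ c ∈ red Q, ∑ c' ∈ red Q, cnt Q T G c c' = ∑ t ∈ Icc 1 (Q * T) with G t, pc Q t := by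
  have h1 : ∀ c c' : ℕ, cnt Q T G c c' =
      ∑ t ∈ (Icc 1 (Q * T)).filter G, if (c + t) % Q = c' then 1 else 0 := by
    intro c c'
    unfold cnt
    rw [← filter_filter, card_filter]
  have h2 : ∀ t c : ℕ, (∑ c' ∈ red Q, if (c + t) % Q = c' then 1 else 0) =
      if Nat.Coprime (c + t) Q then 1 else 0 := by
    intro t c
    rw [sum_ite_eq]
    have : ((c + t) % Q ∈ red Q) ↔ Nat.Coprime (c + t) Q := by
      unfold red
      rw [mem_filter, mem_range, coprime_mod_iff]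
      exact ⟨fun h => h.2, fun h => ⟨Nat.mod_lt _ hQ, h⟩⟩
    simp only [this]
  have h3 : ∀ t : ℕ, (∑ c ∈ red Q, if Nat.Coprime (c + t) Q then 1 else 0) = pc Q t := by
    intro t
    unfold red pc
    rw [← card_filter, filter_filter]
  calc ∑ c ∈ red Q, ∑ c' ∈ red Q, cnt Q T G c c'
      = ∑ c ∈ red Q, ∑ c' ∈ red Q, ∑ t ∈ (Icc 1 (Q * T)).filter G,
          if (c + t) % Q = c' then 1 else 0 := by
        exact sum_congr rfl fun c _ => sum_congr rfl fun c' _ => h1 c c'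
    _ = ∑ c ∈ red Q, ∑ t ∈ (Icc 1 (Q * T)).filter G, ∑ c' ∈ red Q,
          (if (c + t) % Q = c' then 1 else 0) := sum_congr rfl fun c _ => sum_comm
    _ = ∑ t ∈ (Icc 1 (Q * T)).filter G, ∑ c ∈ red Q, ∑ c' ∈ red Q,
          (if (c + t) % Q = c' then 1 else 0) := sum_comm
    _ = ∑ t ∈ (Icc 1 (Q * T)).filter G, pc Q t := by
        refine sum_congr rfl fun t _ => ?_
        rw [← h3 t]
        exact sum_congr rfl fun c _ => h2 t c

end Pool.Agent.H21.QG2
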