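import Pool.Agent.H21.QG2.PairCountA
import Pool.Agent.H21.QG2.PairCountB

/-!
Elementary properties of `pc Q t`, the number of residues `a mod Q` with `a`, `a + t` coprime to
`Q`: see the two imported files.
-/
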