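import Pool.Agent.H21.QG2.Defs

/-!
JOB QH-5a: first part of the elementary properties of `pc Q t` (see `PairCount.lean`), sums of periodic functions.
-/

set_option autoImplicit false

open Finset

namespace Pool.Agent.H21.QG2

theorem card_red (Q : ℕ) : #(red Q) = Nat.totient Q := by
  rw [Nat.totient_eq_card_coprime, red]
  congr 1
  exact filter_congr fun a _ => Nat.coprime_comm

theorem pc_add_right (Q t : ℕ) : pc Q (t + Q) = pc Q t := by
  unfold pc
  congr 1
  refine filter_congr fun a _ => ?_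
  rw [← add_assoc, Nat.coprime_add_self_left]

theorem pc_mod (Q t : ℕ) : pc Q (t % Q) = pc Q t := by
  have h : Function.Periodic (pc Q) Q := fun x => pc_add_right Q x
  exact h.map_mod_nat t

theorem pc_sum (Q : ℕ) (hQ : 0 < Q) : ∑ t ∈ range Q, pc Q t = Nat.totient Q ^ 2 := by
  have h1 : ∀ a, #{t ∈ range Q | Nat.Coprime (a + t) Q} = Nat.totient Q := by
    intro a
    rw [← Nat.filter_coprime_Ico_eq_totient Q a]
    refine card_bij' (fun t _ => a + t) (fun x _ => x - a) ?_ ?_ ?_ ?_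
    · intro t ht
      rw [mem_filter, mem_range] at ht
      rw [mem_filter, mem_Ico]
      exact ⟨⟨by omega, by omega⟩, ht.2.symm⟩
    · intro x hx
      rw [mem_filter, mem_Ico] at hx
      rw [mem_filter, mem_range]
      refine ⟨by omega, ?_⟩
      rw [Nat.add_sub_cancel' hx.1.1]
      exact hx.2.symm
    · intro t _
      exact Nat.add_sub_cancel_left a t
    · intro x hx
      rw [mem_filter, mem_Ico] at hx
      exact Nat.add_sub_cancel' hx.1.1
  have h2 : ∀ t, pc Q t = ∑ a ∈ red Q, if Nat.Coprime (a + t) Q then 1 else 0 := by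
    intro t
    rw [pc, ← card_filter, red, filter_filter]
  calc ∑ t ∈ range Q, pc Q t
      = ∑ t ∈ range Q, ∑ a ∈ red Q, (if Nat.Coprime (a + t) Q then 1 else 0) :=
        sum_congr rfl fun t _ => h2 t
    _ = ∑ a ∈ red Q, ∑ t ∈ range Q, (if Nat.Coprime (a + t) Q then 1 else 0) := sum_comm
    _ = ∑ a ∈ red Q, Nat.totient Q := by
        refine sum_congr rfl fun a _ => ?_
        rw [← card_filter, h1]
    _ = Nat.totient Q ^ 2 := by
        rw [sum_const, card_red, smul_eq_mul, sq]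

theorem sum_range_mul_periodic (Q : ℕ) (f : ℕ → ℝ) (hf : ∀ t, f (t + Q) = f t) (m : ℕ) :
    ∑ t ∈ range (Q * m), f t = m * ∑ t ∈ range Q, f t := by
  have hp : ∀ (m t : ℕ), f (Q * m + t) = f t := by
    intro m
    induction m with
    | zero => intro t; rw [mul_zero, zero_add]
    | succ m ih =>
      intro t
      have e : Q * (m + 1) + t = (Q * m + t) + Q := by ring
      rw [e, hf, ih]
  induction m with
  | zero => simp
  | succ m ih =>
    rw [mul_add, mul_one, sum_range_add, ih, sum_congr rfl fun t _ => hp m t]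
    push_cast
    ring

/-- sums of a nonnegative periodic function, upper bound -/
theorem sum_periodic_le (Q : ℕ) (hQ : 0 < Q) (f : ℕ → ℝ) (hf : ∀ t, f (t + Q) = f t)
    (hf0 : ∀ t, 0 ≤ f t) (M : ℕ) :
    ∑ t ∈ Icc 1 M, f t ≤ ((M : ℝ) / Q + 1) * ∑ t ∈ range Q, f t := by
  have hS : 0 ≤ ∑ t ∈ range Q, f t := sum_nonneg fun t _ => hf0 t
  have h1 : Icc 1 M ⊆ range (Q * (M / Q + 1)) := by
    intro t ht
    rw [mem_Icc] at ht
    rw [mem_range]
    have := Nat.lt_mul_div_succ M hQ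
    omega
  have h2 : ((M / Q : ℕ) : ℝ) ≤ (M : ℝ) / Q := Nat.cast_div_le
  calc ∑ t ∈ Icc 1 M, f t ≤ ∑ t ∈ range (Q * (M / Q + 1)), f t :=
        sum_le_sum_of_subset_of_nonneg h1 fun t _ _ => hf0 t
    _ = ((M / Q + 1 : ℕ) : ℝ) * ∑ t ∈ range Q, f t := sum_range_mul_periodic Q f hf _
    _ ≤ ((M : ℝ) / Q + 1) * ∑ t ∈ range Q, f t := by
        apply mul_le_mul_of_nonneg_right _ hS
        push_cast
        linarith

/-- sums of a nonnegative periodic function, lower bound -/
theorem sum_periodic_ge (Q : ℕ) (hQ : 0 < Q) (f : ℕ → ℝ) (hf : ∀ t, f (t + Q) = f t)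
    (hf0 : ∀ t, 0 ≤ f t) (M : ℕ) :
    ((M : ℝ) / Q - 1) * ∑ t ∈ range Q, f t ≤ ∑ t ∈ Icc 1 M, f t := by
  have hS : 0 ≤ ∑ t ∈ range Q, f t := sum_nonneg fun t _ => hf0 t
  have hQ' : (0 : ℝ) < Q := by exact_mod_cast hQ
  have hshift : ∑ t ∈ range Q, f (t + 1) = ∑ t ∈ range Q, f t := by
    have e1 := sum_range_succ' f Q
    have e2 := sum_range_succ f Q
    have e3 : f Q = f 0 := by
      have := hf 0
      rwa [zero_add] at this
    rw [e1, e3] at e2
    exact add_right_cancel e2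
  have h1 : (range (Q * (M / Q))).image (· + 1) ⊆ Icc 1 M := by
    intro x hx
    rw [mem_image] at hx
    obtain ⟨t, ht, rfl⟩ := hx
    rw [mem_range] at ht
    rw [mem_Icc]
    have := Nat.mul_div_le M Q
    omega
  have h2 : (M : ℝ) / Q - 1 ≤ ((M / Q : ℕ) : ℝ) := by
    have h3 := Nat.lt_mul_div_succ M hQ
    have h4 : (M : ℝ) < Q * ((M / Q : ℕ) + 1) := by exact_mod_cast h3
    rw [sub_le_iff_le_add, div_le_iff₀ hQ']
    linarith
  calc ((M : ℝ) / Q - 1) * ∑ t ∈ range Q, f t ≤ ((M / Q : ℕ) : ℝ) * ∑ t ∈ range Q, f t :=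
        mul_le_mul_of_nonneg_right h2 hS
    _ = ((M / Q : ℕ) : ℝ) * ∑ t ∈ range Q, f (t + 1) := by rw [hshift]
    _ = ∑ t ∈ range (Q * (M / Q)), f (t + 1) := by
        rw [sum_range_mul_periodic Q (fun t => f (t + 1)) (fun t => by
          show f (t + Q + 1) = f (t + 1)
          rw [← hf (t + 1)]
          congr 1
          ring)]
    _ = ∑ x ∈ (range (Q * (M / Q))).image (· + 1), f x := by
        rw [sum_image]
        intro a _ b _ h
        exact Nat.add_right_cancel h
    _ ≤ ∑ t ∈ Icc 1 M, f t := sum_le_sum_of_subset_of_nonneg h1 fun t _ _ => hf0 t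

end Pool.Agent.H21.QG2
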