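import Pool.Agent.H21.QG2.Defs

/-!
JOB QH-4 (about 80 lines): summing the degrees by removing classes one at a time.

Proof. If `δ < 0` the left side is `≤ 0`. Let `δ ≥ 0`; induction on `C` (strong induction on the subset / on `#C`): for
`C = ∅` both sides are `0`. For `C ≠ ∅` take `c ∈ C` from `h C`, `C' = C.erase c`, `n = #C`. Then
`∑_C ∑_C cnt = ∑_{C'} ∑_{C'} cnt + ∑_{c' ∈ C} (cnt c c' + cnt c' c) - cnt c c` and `cnt c c ≤ T` (the `t ∈ [1, q T]` with
`(c + t) % q = c` are the multiples of `q`). With `F n = δ T n^2 - n (T + 2 n)` one needs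
`F n ≤ F (n - 1) + 2 (δ n T - n) - T`, which is `δ T + 2 n ≥ 2`.
-/

set_option autoImplicit false

open Finset

namespace Pool.Agent.H21.QG2

lemma cnt_self_le (q T : ℕ) (hq : 0 < q) (G : ℕ → Prop) (c : ℕ) (hc : c < q) :
    cnt q T G c c ≤ T := by
  classical
  unfold cnt
  calc _ ≤ #((range T).image (fun k => q * (k + 1))) := by
        apply Finset.card_le_card
        intro t ht
        rw [Finset.mem_filter, Finset.mem_Icc] at ht
        obtain ⟨⟨h1, h2⟩, -, h3⟩ := ht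
        have h4 : q ∣ t := by
          have h5 : c + t ≡ c [MOD q] := by
            unfold Nat.ModEq
            rw [h3, Nat.mod_eq_of_lt hc]
          have h6 : c + t ≡ c + 0 [MOD q] := by rwa [Nat.add_zero]
          exact Nat.modEq_zero_iff_dvd.1 (Nat.ModEq.add_left_cancel' c h6)
        obtain ⟨k, rfl⟩ := h4
        rw [Finset.mem_image]
        have hk : 0 < k := by
          rcases Nat.eq_zero_or_pos k with rfl | h
          · simp at h1
          · exact h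
        have hkT : k ≤ T := Nat.le_of_mul_le_mul_left h2 hq
        exact ⟨k - 1, Finset.mem_range.2 (by omega), by congr 1; omega⟩
    _ ≤ #(range T) := Finset.card_image_le
    _ = T := Finset.card_range T

theorem total_ge (q T : ℕ) (hq : 0 < q) (G : ℕ → Prop) (δ : ℝ) (C : Finset ℕ)
    (hC : ∀ c ∈ C, c < q)
    (h : ∀ C' ⊆ C, C'.Nonempty → ∃ c ∈ C', 2 * (δ * (#C' * T) - #C') ≤
      ((∑ c' ∈ C', (cnt q T G c c' + cnt q T G c' c) : ℕ) : ℝ)) :
    δ * T * (#C : ℝ) ^ 2 - #C * (T + 2 * #C) ≤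
      ((∑ c ∈ C, ∑ c' ∈ C, cnt q T G c c' : ℕ) : ℝ) := by
  classical
  rcases lt_or_ge δ 0 with hδ | hδ
  · have h1 : δ * T * (#C : ℝ) ^ 2 ≤ 0 := by
      apply mul_nonpos_of_nonpos_of_nonneg _ (by positivity)
      exact mul_nonpos_of_nonpos_of_nonneg hδ.le (Nat.cast_nonneg _)
    have h2 : (0 : ℝ) ≤ #C * (T + 2 * #C) := by positivity
    have h3 : (0 : ℝ) ≤ ((∑ c ∈ C, ∑ c' ∈ C, cnt q T G c c' : ℕ) : ℝ) := Nat.cast_nonneg _
    linarith
  induction hn : #C generalizing C with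
  | zero =>
    have h3 : (0 : ℝ) ≤ ((∑ c ∈ C, ∑ c' ∈ C, cnt q T G c c' : ℕ) : ℝ) := Nat.cast_nonneg _
    have h4 : δ * T * ((0 : ℕ) : ℝ) ^ 2 - ((0 : ℕ) : ℝ) * (T + 2 * ((0 : ℕ) : ℝ)) = 0 := by simp
    rw [h4]
    exact h3
  | succ n ih =>
    have hne : C.Nonempty := Finset.card_pos.1 (by omega)
    obtain ⟨c, hcC, hc⟩ := h C subset_rfl hne
    have hcard : #(C.erase c) = n := by rw [Finset.card_erase_of_mem hcC]; omega
    have h1 := ih (C.erase c) (fun c' hc' => hC c' (Finset.mem_of_mem_erase hc'))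
      (fun C' hC' hne' => h C' (hC'.trans (Finset.erase_subset _ _)) hne') hcard
    have h2 : ∑ a ∈ C, ∑ b ∈ C, cnt q T G a b + cnt q T G c c =
        ∑ a ∈ C.erase c, ∑ b ∈ C.erase c, cnt q T G a b +
        ∑ b ∈ C, (cnt q T G c b + cnt q T G b c) := by
      have e1 : ∀ f : ℕ → ℕ, ∑ a ∈ C, f a = ∑ a ∈ C.erase c, f a + f c := fun f =>
        (Finset.sum_erase_add C f hcC).symm
      rw [e1 (fun a => ∑ b ∈ C, cnt q T G a b), e1 (fun b => cnt q T G c b + cnt q T G b c)]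
      have e2 : ∑ a ∈ C.erase c, ∑ b ∈ C, cnt q T G a b =
          ∑ a ∈ C.erase c, ∑ b ∈ C.erase c, cnt q T G a b + ∑ a ∈ C.erase c, cnt q T G a c := by
        rw [← Finset.sum_add_distrib]
        exact Finset.sum_congr rfl (fun a _ => e1 (fun b => cnt q T G a b))
      rw [e2, e1 (fun b => cnt q T G c b), Finset.sum_add_distrib]
      ring
    have h3 : (cnt q T G c c : ℝ) ≤ T := by
      exact_mod_cast cnt_self_le q T hq G c (hC c hcC)
    have h4 : ((∑ a ∈ C, ∑ b ∈ C, cnt q T G a b : ℕ) : ℝ) + (cnt q T G c c : ℕ) =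
        ((∑ a ∈ C.erase c, ∑ b ∈ C.erase c, cnt q T G a b : ℕ) : ℝ) +
        ((∑ b ∈ C, (cnt q T G c b + cnt q T G b c) : ℕ) : ℝ) := by
      exact_mod_cast h2
    rw [hn] at hc
    push_cast at hc h1 h4 ⊢
    have h5 : 0 ≤ δ * T := mul_nonneg hδ (Nat.cast_nonneg _)
    have h6 : (0 : ℝ) ≤ n := Nat.cast_nonneg _
    nlinarith [h1, h3, h4, hc, h5, h6]

end Pool.Agent.H21.QG2
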