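import Pool.Agent.H21.QG2.SecondMomentA

/-!
JOB QH-6 (about 200 lines): the second moment of `pc Q' t`, `Q' = ∏ (7 ≤ p ≤ z) p`.

* `pc_prime_zero`: `pc p 0 = p - 1`; `pc_prime`: `pc p t = p - 2` for `¬ p ∣ t` (the excluded `a` are `0` and `-t mod p`).
* `e2_prime`: `∑ t ∈ range p, (pc p t)^2 = (p - 1)^2 + (p - 1) (p - 2)^2`.
* `e2_mul`: for coprime `Q₁, Q₂ > 0`: `∑ t ∈ range (Q₁ Q₂), (pc (Q₁ Q₂) t)^2 = (∑ Q₁) (∑ Q₂)` by `pc_mul`, `pc_mod` and the
  Chinese remainder bijection `t ↦ (t % Q₁, t % Q₂)`.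
* `e2_bound`: `Q' ∑ t ∈ range Q', (pc Q' t)^2 ≤ (1 + 39/5000) φ(Q')^4`. For a prime `p`:
  `p ((p-1)^2 + (p-1)(p-2)^2) = (p-1)^4 (1 + 1/(p-1)^3)` because `p^3 - 3p^2 + 3p = (p-1)^3 + 1`. So the left side is
  `φ(Q')^4 ∏ (7 ≤ p ≤ z) (1 + 1/(p-1)^3)` (induction over the set of primes, `Nat.totient_mul`, coprimality of `p` with a
  product of other primes). The product is `≤ (1 + 1/216) ∏ (11 ≤ m ≤ z, m odd) (1 + 1/(m-1)^3)`; with `m - 1 = 2 j`,
  `1/(8 j^3) ≤ (1/16)(1/((j-1) j) - 1/(j (j+1)))`, so the sum of `1/(m-1)^3` over odd `m ≥ 11` is `≤ (1/16)(1/20) = 1/320`, and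
  `∏ (1 + x_j) ≤ 1 / (1 - ∑ x_j)` (or `≤ exp`), which gives `≤ (217/216) / (1 - 1/320) ≤ 1 + 39/5000`.
  (Suggestion: prove by induction on `z` (or over an interval of `j`) the bound
  `∏ p ∈ primes of [11, z], (1 + 1/(p-1)^3) ≤ 1/(1 - 1/320 + r z)` with a suitable `r z > 0`.)
-/

set_option autoImplicit false

open Finset

namespace Pool.Agent.H21.QG2

theorem prod_mono_of_one_le {S T : Finset ℕ} (h : S ⊆ T) (f : ℕ → ℝ) (hf : ∀ p ∈ T, 1 ≤ f p) :
    ∏ p ∈ S, f p ≤ ∏ p ∈ T, f p := by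
  classical
  rw [← Finset.prod_sdiff h]
  have h1 : 1 ≤ ∏ p ∈ T \ S, f p := by
    have := Finset.prod_le_prod (s := T \ S) (f := fun _ => (1 : ℝ)) (g := f)
      (fun _ _ => zero_le_one) (fun p hp => hf p (mem_sdiff.1 hp).1)
    simpa using this
  have h2 : 0 ≤ ∏ p ∈ S, f p := Finset.prod_nonneg fun p hp => zero_le_one.trans (hf p (h hp))
  nlinarith

theorem e2_prod (S : Finset ℕ) (hS : ∀ p ∈ S, p.Prime) :
    ((∏ p ∈ S, p : ℕ) : ℝ) * ∑ t ∈ range (∏ p ∈ S, p), ((pc (∏ p ∈ S, p) t : ℕ) : ℝ) ^ 2 =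
      (Nat.totient (∏ p ∈ S, p) : ℝ) ^ 4 * ∏ p ∈ S, (1 + 1 / ((p : ℝ) - 1) ^ 3) := by
  classical
  induction S using Finset.induction_on with
  | empty =>
    have h : pc 1 0 = 1 := by
      unfold pc
      decide
    simp [h]
  | insert p S hp ih =>
    have hpp : p.Prime := hS p (mem_insert_self _ _)
    have hS' : ∀ q ∈ S, q.Prime := fun q hq => hS q (mem_insert_of_mem hq)
    have hcop : Nat.Coprime p (∏ q ∈ S, q) := by
      refine Nat.Coprime.prod_right fun q hq => ?_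
      rw [Nat.coprime_primes hpp (hS' q hq)]
      intro h
      exact hp (h ▸ hq)
    have hpos : 0 < ∏ q ∈ S, q := Finset.prod_pos fun q hq => (hS' q hq).pos
    have ih := ih hS'
    rw [Finset.prod_insert hp, Finset.prod_insert hp, e2_mul p _ hcop hpp.pos hpos, e2_prime p hpp,
      Nat.totient_mul hcop, Nat.totient_prime hpp]
    have h1 : (1 : ℕ) ≤ p := hpp.one_lt.le
    have hp1 : ((p : ℝ) - 1) ≠ 0 := by
      have : (1 : ℝ) < p := by exact_mod_cast hpp.one_lt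
      linarith
    push_cast [Nat.cast_sub h1]
    push_cast at ih
    have e : (p : ℝ) * (((p : ℝ) - 1) ^ 2 + (p - 1) * (p - 2) ^ 2) =
        ((p : ℝ) - 1) ^ 4 * (1 + 1 / ((p : ℝ) - 1) ^ 3) := by
      field_simp
      ring
    calc _ = ((p : ℝ) * (((p : ℝ) - 1) ^ 2 + (p - 1) * (p - 2) ^ 2)) *
          ((∏ q ∈ S, (q : ℝ)) * ∑ t ∈ range (∏ q ∈ S, q), ((pc (∏ q ∈ S, q) t : ℕ) : ℝ) ^ 2) := by
            ring
      _ = _ := by
            rw [e, ih]
            ring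

theorem prod_bound (n : ℕ) (hn : 5 ≤ n) :
    ∏ p ∈ (Icc 7 (2 * n)).filter Nat.Prime, (1 + 1 / ((p : ℝ) - 1) ^ 3) ≤
      (217 / 216) / (319 / 320 + 1 / (16 * ((n : ℝ) - 1) * n)) := by
  induction n, hn using Nat.le_induction with
  | base =>
    have h : (Icc 7 (2 * 5)).filter Nat.Prime = {7} := by decide
    rw [h]
    norm_num
  | succ n hn ih =>
    have hsub : (Icc 7 (2 * (n + 1))).filter Nat.Prime ⊆
        insert (2 * n + 1) ((Icc 7 (2 * n)).filter Nat.Prime) := by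
      intro p hp
      simp only [mem_filter, mem_Icc, mem_insert] at hp ⊢
      obtain ⟨⟨h7, h2⟩, hpp⟩ := hp
      have hne : p ≠ 2 * (n + 1) := by
        rintro rfl
        have := (Nat.prime_dvd_prime_iff_eq Nat.prime_two hpp).1 (Dvd.intro _ rfl)
        omega
      by_cases h : p = 2 * n + 1
      · exact Or.inl h
      · right
        exact ⟨⟨h7, by omega⟩, hpp⟩
    have hnR : (5 : ℝ) ≤ n := by exact_mod_cast hn
    have hge : ∀ p ∈ insert (2 * n + 1) ((Icc 7 (2 * n)).filter Nat.Prime),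
        (1 : ℝ) ≤ 1 + 1 / ((p : ℝ) - 1) ^ 3 := by
      intro p hp
      have h1 : (1 : ℝ) ≤ p := by
        simp only [mem_filter, mem_Icc, mem_insert] at hp
        have : 1 ≤ p := by omega
        exact_mod_cast this
      have : 0 ≤ 1 / ((p : ℝ) - 1) ^ 3 := by
        apply div_nonneg zero_le_one
        apply pow_nonneg
        linarith
      linarith
    have hnot : (2 * n + 1) ∉ (Icc 7 (2 * n)).filter Nat.Prime := by
      simp
    have step : ∏ p ∈ (Icc 7 (2 * (n + 1))).filter Nat.Prime, (1 + 1 / ((p : ℝ) - 1) ^ 3) ≤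
        (1 + 1 / (2 * (n : ℝ)) ^ 3) *
        ∏ p ∈ (Icc 7 (2 * n)).filter Nat.Prime, (1 + 1 / ((p : ℝ) - 1) ^ 3) := by
      calc _ ≤ ∏ p ∈ insert (2 * n + 1) ((Icc 7 (2 * n)).filter Nat.Prime),
            (1 + 1 / ((p : ℝ) - 1) ^ 3) := by
              exact prod_mono_of_one_le hsub _ hge
        _ = _ := by
              rw [Finset.prod_insert hnot]
              push_cast
              ring_nf
    have hfac : (0 : ℝ) ≤ 1 + 1 / (2 * (n : ℝ)) ^ 3 := by positivity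
    refine step.trans ((mul_le_mul_of_nonneg_left ih hfac).trans ?_)
    have hn0 : (0 : ℝ) < n := by linarith
    have hn1 : (0 : ℝ) < (n : ℝ) - 1 := by linarith
    have hA : 0 < (319 / 320 + 1 / (16 * ((n : ℝ) - 1) * n)) := by positivity
    have hB : 0 < (319 / 320 + 1 / (16 * (((n + 1 : ℕ) : ℝ) - 1) * ((n + 1 : ℕ) : ℝ))) := by
      push_cast
      have : (0 : ℝ) < (n : ℝ) + 1 - 1 := by linarith
      positivity
    rw [← mul_div_assoc, div_le_div_iff₀ hA hB]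
    have key : (1 + 1 / (2 * (n : ℝ)) ^ 3) *
        (319 / 320 + 1 / (16 * (((n + 1 : ℕ) : ℝ) - 1) * ((n + 1 : ℕ) : ℝ))) ≤
        (319 / 320 + 1 / (16 * ((n : ℝ) - 1) * n)) := by
      push_cast
      have e1 : (n : ℝ) + 1 - 1 = n := by ring
      rw [e1]
      have hA1 : 319 / 320 + 1 / (16 * (n : ℝ) * (n + 1)) ≤ 1 := by
        have : 1 / (16 * (n : ℝ) * (n + 1)) ≤ 1 / 320 := by
          apply one_div_le_one_div_of_le (by norm_num)
          nlinarith
        linarith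
      have h3 : 0 ≤ 1 / (2 * (n : ℝ)) ^ 3 := by positivity
      have h4 : 1 / (2 * (n : ℝ)) ^ 3 ≤
          1 / (16 * ((n : ℝ) - 1) * n) - 1 / (16 * (n : ℝ) * (n + 1)) := by
        have : 1 / (16 * ((n : ℝ) - 1) * n) - 1 / (16 * (n : ℝ) * (n + 1)) =
            1 / (8 * (n : ℝ) * (((n : ℝ) - 1) * (n + 1))) := by
          field_simp
          ring
        rw [this]
        apply one_div_le_one_div_of_le (by positivity)
        nlinarith [mul_pos hn0 hn0, mul_pos (mul_pos hn0 hn0) hn0]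
      nlinarith
    nlinarith

theorem e2_bound (z : ℕ) :
    (Qz z : ℝ) * ∑ t ∈ range (Qz z), ((pc (Qz z) t : ℕ) : ℝ) ^ 2 ≤
      (1 + 39 / 5000) * (Nat.totient (Qz z) : ℝ) ^ 4 := by
  have h := e2_prod ((Icc 7 z).filter Nat.Prime) (fun p hp => (mem_filter.1 hp).2)
  have hb := prod_bound (z + 5) (by omega)
  have hge : ∀ p ∈ (Icc 7 (2 * (z + 5))).filter Nat.Prime, (1 : ℝ) ≤ 1 + 1 / ((p : ℝ) - 1) ^ 3 := by
    intro p hp
    have h1 : (1 : ℝ) ≤ p := by
      simp only [mem_filter, mem_Icc] at hp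
      have : 1 ≤ p := by omega
      exact_mod_cast this
    have : 0 ≤ 1 / ((p : ℝ) - 1) ^ 3 := by
      apply div_nonneg zero_le_one
      apply pow_nonneg
      linarith
    linarith
  have hmono : ∏ p ∈ (Icc 7 z).filter Nat.Prime, (1 + 1 / ((p : ℝ) - 1) ^ 3) ≤
      ∏ p ∈ (Icc 7 (2 * (z + 5))).filter Nat.Prime, (1 + 1 / ((p : ℝ) - 1) ^ 3) := by
    have hsub : (Icc 7 z).filter Nat.Prime ⊆ (Icc 7 (2 * (z + 5))).filter Nat.Prime := by
      apply Finset.filter_subset_filter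
      apply Finset.Icc_subset_Icc_right
      omega
    exact prod_mono_of_one_le hsub _ hge
  have hQ : Qz z = ∏ p ∈ (Icc 7 z).filter Nat.Prime, p := rfl
  rw [← hQ] at h
  rw [h, mul_comm]
  apply mul_le_mul_of_nonneg_right _ (by positivity)
  refine hmono.trans (hb.trans ?_)
  have hz : (0 : ℝ) ≤ 1 / (16 * (((z + 5 : ℕ) : ℝ) - 1) * ((z + 5 : ℕ) : ℝ)) := by
    push_cast
    have : (0 : ℝ) ≤ (z : ℝ) + 5 - 1 := by
      have : (0 : ℝ) ≤ z := Nat.cast_nonneg z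
      linarith
    positivity
  rw [div_le_iff₀ (by linarith)]
  linarith

end Pool.Agent.H21.QG2
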