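import Pool.Agent.H21.QG2.PairCount

/-!
JOB QH-6a: the second moment of `pc p t` over the residues `t mod p` for a prime `p`, and its multiplicativity.
-/

set_option autoImplicit false

open Finset

namespace Pool.Agent.H21.QG2

theorem pc_prime_zero (p : ℕ) (hp : p.Prime) : pc p 0 = p - 1 := by
  have h : ({a ∈ range p | Nat.Coprime a p ∧ Nat.Coprime (a + 0) p} : Finset ℕ) =
      (range p).erase 0 := by
    ext a
    simp only [mem_filter, mem_range, add_zero, and_self, mem_erase]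
    constructor
    · rintro ⟨h1, h2⟩
      refine ⟨?_, h1⟩
      rintro rfl
      rw [Nat.coprime_zero_left] at h2
      exact hp.one_lt.ne' h2
    · rintro ⟨h1, h2⟩
      refine ⟨h2, ?_⟩
      exact (Nat.coprime_of_lt_prime (by omega) h2 hp).symm
  unfold pc
  rw [h, card_erase_of_mem (by simp [hp.pos]), card_range]

theorem pc_prime (p : ℕ) (hp : p.Prime) (t : ℕ) (h0 : 0 < t) (ht : t < p) : pc p t = p - 2 := by
  have h : ({a ∈ range p | Nat.Coprime a p ∧ Nat.Coprime (a + t) p} : Finset ℕ) =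
      ((range p).erase 0).erase (p - t) := by
    ext a
    simp only [mem_filter, mem_range, mem_erase]
    constructor
    · rintro ⟨h1, h2, h3⟩
      refine ⟨?_, ?_, h1⟩
      · rintro rfl
        rw [Nat.sub_add_cancel ht.le, Nat.coprime_self] at h3
        exact hp.one_lt.ne' h3
      · rintro rfl
        rw [Nat.coprime_zero_left] at h2
        exact hp.one_lt.ne' h2
    · rintro ⟨h1, h2, h3⟩
      refine ⟨h3, (Nat.coprime_of_lt_prime (by omega) h3 hp).symm, ?_⟩
      rw [Nat.coprime_comm, hp.coprime_iff_not_dvd]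
      rintro ⟨k, hk⟩
      have hk1 : k = 1 := by
        rcases k with _ | _ | k
        · omega
        · rfl
        · exfalso
          have : p * (k + 1 + 1) = p * k + 2 * p := by ring
          rw [this] at hk
          omega
      subst hk1
      omega
  unfold pc
  rw [h, card_erase_of_mem, card_erase_of_mem (by simp [hp.pos]), card_range]
  · omega
  · simp only [mem_erase, mem_range]
    constructor
    · omega
    · omega

theorem e2_prime (p : ℕ) (hp : p.Prime) :
    ∑ t ∈ range p, ((pc p t : ℕ) : ℝ) ^ 2 = ((p : ℝ) - 1) ^ 2 + (p - 1) * (p - 2) ^ 2 := by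
  obtain ⟨k, rfl⟩ : ∃ k, p = k + 1 := ⟨p - 1, by have := hp.pos; omega⟩
  have hk : 1 ≤ k := by have := hp.two_le; omega
  rw [sum_range_succ', pc_prime_zero _ hp]
  have h : ∀ t ∈ range k, ((pc (k + 1) (t + 1) : ℕ) : ℝ) ^ 2 = ((k : ℝ) - 1) ^ 2 := by
    intro t ht
    rw [mem_range] at ht
    rw [pc_prime _ hp (t + 1) (by omega) (by omega)]
    have h2 : ((k + 1 - 2 : ℕ) : ℝ) = (k : ℝ) - 1 := by
      have : k + 1 - 2 = k - 1 := by omega
      rw [this, Nat.cast_sub hk]
      simp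
    rw [h2]
  rw [sum_congr rfl h, sum_const, card_range, nsmul_eq_mul]
  have h3 : ((k + 1 - 1 : ℕ) : ℝ) = (k : ℝ) := by simp
  rw [h3]
  push_cast
  ring

theorem e2_mul (Q₁ Q₂ : ℕ) (h : Nat.Coprime Q₁ Q₂) (h1 : 0 < Q₁) (h2 : 0 < Q₂) :
    ∑ t ∈ range (Q₁ * Q₂), ((pc (Q₁ * Q₂) t : ℕ) : ℝ) ^ 2 =
      (∑ t ∈ range Q₁, ((pc Q₁ t : ℕ) : ℝ) ^ 2) * ∑ t ∈ range Q₂, ((pc Q₂ t : ℕ) : ℝ) ^ 2 := by
  rw [sum_mul_sum, ← sum_product']
  refine sum_nbij (fun t => (t % Q₁, t % Q₂)) ?_ ?_ ?_ ?_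
  · intro t _
    simp only [mem_product, mem_range]
    exact ⟨Nat.mod_lt _ h1, Nat.mod_lt _ h2⟩
  · intro s hs t ht hst
    simp only [coe_range, Set.mem_Iio] at hs ht
    simp only [Prod.mk.injEq] at hst
    have hm : s ≡ t [MOD Q₁ * Q₂] := (Nat.modEq_and_modEq_iff_modEq_mul h).1 ⟨hst.1, hst.2⟩
    have := Nat.ModEq.eq_of_lt_of_lt hm hs ht
    exact this
  · rintro ⟨a, b⟩ hab
    simp only [coe_product, coe_range, Set.mem_prod, Set.mem_Iio] at hab
    refine ⟨Nat.chineseRemainder h a b, ?_, ?_⟩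
    · simp only [coe_range, Set.mem_Iio]
      exact Nat.chineseRemainder_lt_mul h a b h1.ne' h2.ne'
    · have hc := (Nat.chineseRemainder h a b).2
      simp only [Prod.mk.injEq]
      refine ⟨?_, ?_⟩
      · have := hc.1
        unfold Nat.ModEq at this
        rw [this, Nat.mod_eq_of_lt hab.1]
      · have := hc.2
        unfold Nat.ModEq at this
        rw [this, Nat.mod_eq_of_lt hab.2]
  · intro t _
    simp only
    rw [pc_mod, pc_mod, pc_mul _ _ _ h]
    push_cast
    ring

end Pool.Agent.H21.QG2
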