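import Pool.Agent.H21.QG2.Defs
import Pool.Agent.H21.QG2.Balance

/-!
JOB QH-3 (about 150 lines): large minimal degree on a subset of a window forces many connections.

Proof. `card_win`: `(c, k) ↦ c + q k` is injective on `C × range T` as `c < q`.
`deg_ge`: `X i j = {x ∈ Ioo (-T) T | G ((j - i + q x).natAbs)} : Finset ℤ` (classical filter; `i j` cast to `ℤ`); symmetric
because `i - j + q (-x) = -(j - i + q x)`. `balance` gives `τ`. Take `u ∈ U` minimizing
`key u = (u / q : ℤ) + τ (u % q)` (`Finset.exists_min_image`), `c = u % q ∈ C`, `k = u / q < T`. A neighbour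
`u' = c' + q k' ∈ U` (`G (max u u' - min u u')`) has `x = k' - k ∈ X c c'` (`max - min = natAbs (u' - u)`,
`u' - u = c' - c + q x`) and `x + τ c' - τ c ≥ 0`. The map `u' ↦ (c', x)` is injective, so
`#{neighbours} ≤ ∑ c' ∈ C, #{x ∈ X c c' | 0 ≤ x + τ c' - τ c} ≤ ∑ c' ∈ C, (#{x ∈ X c c' | 0 < x + τ c' - τ c} + 1)`.
By `balance`, `2 * ∑ c' ∈ C, #{0 < ..} ≤ ∑ c' ∈ C, #(X c c')`. Finally `#(X c c') ≤ cnt c c' + cnt c' c`: put
`v = c' - c + q x`; `v ≠ 0` because `¬ G 0`; if `v > 0` then `t = v.natAbs` satisfies `1 ≤ t ≤ q T`, `(c + t) % q = c'`; if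
`v < 0` then `t = v.natAbs` satisfies `(c' + t) % q = c`; both maps `x ↦ t` are injective.
So `δ * (#C * T) ≤ (1/2) ∑ (cnt + cnt) + #C`.
-/

set_option autoImplicit false

open Finset

namespace Pool.Agent.H21.QG2

theorem win_mem {q T : ℕ} {C : Finset ℕ} (hC : ∀ c ∈ C, c < q) {u : ℕ} (hu : u ∈ win q T C) :
    u % q ∈ C ∧ u / q < T := by
  simp only [win, mem_image, mem_product, mem_range, Prod.exists] at hu
  obtain ⟨c, k, ⟨hc, hk⟩, rfl⟩ := hu
  have hcq := hC c hc
  rw [Nat.add_mul_mod_self_left, Nat.mod_eq_of_lt hcq, Nat.add_mul_div_left _ _ (by omega),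
    Nat.div_eq_of_lt hcq, zero_add]
  exact ⟨hc, hk⟩

theorem card_win (q T : ℕ) (C : Finset ℕ) (hC : ∀ c ∈ C, c < q) : #(win q T C) = #C * T := by
  rw [win, card_image_of_injOn, card_product, card_range]
  rintro ⟨c, k⟩ h1 ⟨c', k'⟩ h2 h
  simp only [coe_product, Set.mem_prod, mem_coe, mem_range] at h1 h2 h
  have hc := hC c h1.1
  have hc' := hC c' h2.1
  have e1 : (c + q * k) % q = c := by rw [Nat.add_mul_mod_self_left, Nat.mod_eq_of_lt hc]
  have e2 : (c' + q * k') % q = c' := by rw [Nat.add_mul_mod_self_left, Nat.mod_eq_of_lt hc']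
  have e3 : (c + q * k) / q = k := by
    rw [Nat.add_mul_div_left _ _ (by omega), Nat.div_eq_of_lt hc, zero_add]
  have e4 : (c' + q * k') / q = k' := by
    rw [Nat.add_mul_div_left _ _ (by omega), Nat.div_eq_of_lt hc', zero_add]
  rw [h] at e1 e3
  rw [Prod.mk.injEq]
  exact ⟨e1.symm.trans e2, e3.symm.trans e4⟩

open Classical in
/-- the displacements from the class `i` to the class `j` -/
noncomputable def XX (q T : ℕ) (G : ℕ → Prop) (i j : ℕ) : Finset ℤ :=
  {x ∈ Ioo (-(T : ℤ)) T | G (((j : ℤ) - i + q * x).natAbs)}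

open Classical in
theorem XX_neg (q T : ℕ) (G : ℕ → Prop) (i j : ℕ) (x : ℤ) :
    x ∈ XX q T G i j ↔ -x ∈ XX q T G j i := by
  simp only [XX, mem_filter, mem_Ioo]
  have e : ((i : ℤ) - j + q * -x).natAbs = ((j : ℤ) - i + q * x).natAbs := by
    rw [← Int.natAbs_neg]
    congr 1
    ring
  rw [e]
  constructor
  · rintro ⟨⟨h1, h2⟩, h3⟩
    exact ⟨⟨by omega, by omega⟩, h3⟩
  · rintro ⟨⟨h1, h2⟩, h3⟩
    exact ⟨⟨by omega, by omega⟩, h3⟩

open Classical in
theorem XX_half (q T : ℕ) (hq : 0 < q) (G : ℕ → Prop) (c c' : ℕ) (hc : c < q) (hc' : c' < q) :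
    #{x ∈ XX q T G c c' | 0 < (c' : ℤ) - c + q * x} ≤ cnt q T G c c' := by
  rw [cnt]
  have hq' : (0 : ℤ) < q := by exact_mod_cast hq
  refine card_le_card_of_injOn (fun x => ((c' : ℤ) - c + q * x).natAbs) ?_ ?_
  · intro x hx
    simp only [XX, coe_filter, mem_filter, mem_Ioo, Set.mem_ofPred_eq] at hx
    obtain ⟨⟨⟨h1, h2⟩, h3⟩, h4⟩ := hx
    simp only [coe_filter, mem_Icc, Set.mem_ofPred_eq]
    have hx0 : 0 ≤ x := by
      by_contra hcon
      push Not at hcon
      have : (q : ℤ) * x ≤ q * (-1) := mul_le_mul_of_nonneg_left (by omega) hq'.le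
      omega
    have hxT : (q : ℤ) * x ≤ q * (T - 1) := mul_le_mul_of_nonneg_left (by omega) hq'.le
    have hxT' : (q : ℤ) * (T - 1) = ((q * T : ℕ) : ℤ) - q := by push_cast; ring
    refine ⟨⟨?_, ?_⟩, h3, ?_⟩
    · omega
    · omega
    · obtain ⟨n, rfl⟩ := Int.eq_ofNat_of_zero_le hx0
      have e : c + ((c' : ℤ) - c + q * (n : ℤ)).natAbs = c' + q * n := by
        have : (q : ℤ) * (n : ℤ) = ((q * n : ℕ) : ℤ) := by push_cast; rfl
        rw [this] at h4 ⊢
        omega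
      rw [e, Nat.add_mul_mod_self_left, Nat.mod_eq_of_lt hc']
  · intro x hx y hy hxy
    simp only [coe_filter, Set.mem_ofPred_eq] at hx hy
    have h1 := hx.2
    have h2 := hy.2
    simp only at hxy
    have h3 : (q : ℤ) * x = q * y := by omega
    exact mul_left_cancel₀ hq'.ne' h3

open Classical in
theorem XX_card (q T : ℕ) (hq : 0 < q) (G : ℕ → Prop) (hG0 : ¬ G 0) (c c' : ℕ) (hc : c < q)
    (hc' : c' < q) : #(XX q T G c c') ≤ cnt q T G c c' + cnt q T G c' c := by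
  have h1 := XX_half q T hq G c c' hc hc'
  have h2 := XX_half q T hq G c' c hc' hc
  have h3 : #{x ∈ XX q T G c c' | ¬ 0 < (c' : ℤ) - c + q * x} ≤
      #{x ∈ XX q T G c' c | 0 < (c : ℤ) - c' + q * x} := by
    refine card_le_card_of_injOn (fun x => -x) ?_ ?_
    · intro x hx
      simp only [coe_filter, Set.mem_ofPred_eq] at hx ⊢
      obtain ⟨hx1, hx2⟩ := hx
      refine ⟨(XX_neg q T G c c' x).1 hx1, ?_⟩
      have hne : (c' : ℤ) - c + q * x ≠ 0 := by
        intro h0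
        simp only [XX, mem_filter] at hx1
        have := hx1.2
        rw [h0] at this
        exact hG0 (by simpa using this)
      have : (q : ℤ) * -x = -(q * x) := by ring
      rw [this]
      omega
    · intro x _ y _ hxy
      simpa using hxy
  have h4 := card_filter_add_card_filter_not (s := XX q T G c c')
    (fun x => 0 < (c' : ℤ) - c + q * x)
  omega

open Classical in
theorem deg_ge (q T : ℕ) (hq : 0 < q) (C : Finset ℕ) (hC : ∀ c ∈ C, c < q) (G : ℕ → Prop)
    (hG0 : ¬ G 0) (δ : ℝ) (U : Finset ℕ) (hU : U ⊆ win q T C) (hne : U.Nonempty)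
    (hdeg : ∀ u ∈ U, δ * (#C * T) ≤ (#{u' ∈ U | G (max u u' - min u u')} : ℝ)) :
    ∃ c ∈ C, 2 * (δ * (#C * T) - #C) ≤
      ((∑ c' ∈ C, (cnt q T G c c' + cnt q T G c' c) : ℕ) : ℝ) := by
  obtain ⟨τ, hτ⟩ := balance C (XX q T G) (fun i _ j _ x => XX_neg q T G i j x)
  obtain ⟨u, hu, hmin⟩ := exists_min_image U (fun u => ((u / q : ℕ) : ℤ) + τ (u % q)) hne
  have huw := win_mem hC (hU hu)
  set c := u % q with hc
  have hcq := hC c huw.1
  refine ⟨c, huw.1, ?_⟩
  have hN : #{u' ∈ U | G (max u u' - min u u')} ≤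
      ∑ c' ∈ C, #{x ∈ XX q T G c c' | 0 ≤ x + τ c' - τ c} := by
    rw [← card_sigma]
    refine card_le_card_of_injOn
      (fun u' => (⟨u' % q, ((u' / q : ℕ) : ℤ) - ((u / q : ℕ) : ℤ)⟩ : (_ : ℕ) × ℤ)) ?_ ?_
    · intro u' hu'
      simp only [coe_filter, Set.mem_ofPred_eq] at hu'
      obtain ⟨h1, h2⟩ := hu'
      have hw' := win_mem hC (hU h1)
      have hm := hmin u' h1
      simp only [coe_sigma, Set.mem_sigma_iff, mem_coe, mem_filter]
      refine ⟨hw'.1, ?_, ?_⟩
      · simp only [XX, mem_filter, mem_Ioo]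
        have b1 : (0 : ℤ) ≤ ((u / q : ℕ) : ℤ) := Int.natCast_nonneg _
        have b2 : (0 : ℤ) ≤ ((u' / q : ℕ) : ℤ) := Int.natCast_nonneg _
        have b3 : ((u / q : ℕ) : ℤ) < T := by exact_mod_cast huw.2
        have b4 : ((u' / q : ℕ) : ℤ) < T := by exact_mod_cast hw'.2
        refine ⟨⟨by linarith, by linarith⟩, ?_⟩
        have e : (((u' % q : ℕ) : ℤ) - (c : ℤ) +
            q * (((u' / q : ℕ) : ℤ) - ((u / q : ℕ) : ℤ))).natAbs = max u u' - min u u' := by
          have e1 : (((u' % q : ℕ) : ℤ) - (c : ℤ) +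
            q * (((u' / q : ℕ) : ℤ) - ((u / q : ℕ) : ℤ))) = (u' : ℤ) - u := by
            have a1 : ((u' % q + q * (u' / q) : ℕ) : ℤ) = u' := by rw [Nat.mod_add_div]
            have a2 : ((u % q + q * (u / q) : ℕ) : ℤ) = u := by rw [Nat.mod_add_div]
            rw [hc]
            push_cast at a1 a2 ⊢
            linear_combination a1 - a2
          rw [e1]
          omega
        rw [e]
        exact h2
      · linarith
    · intro x hx y hy hxy
      simp only [Sigma.mk.injEq, heq_eq_eq] at hxy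
      have h1 : x / q = y / q := by omega
      rw [← Nat.mod_add_div x q, ← Nat.mod_add_div y q, hxy.1, h1]
  have h1 : ∀ c' ∈ C, #{x ∈ XX q T G c c' | 0 ≤ x + τ c' - τ c} ≤
      #{x ∈ XX q T G c c' | 0 < x + τ c' - τ c} + 1 := by
    intro c' _
    have hsub : {x ∈ XX q T G c c' | 0 ≤ x + τ c' - τ c} ⊆
        {x ∈ XX q T G c c' | 0 < x + τ c' - τ c} ∪ {τ c - τ c'} := by
      intro x hx
      simp only [mem_filter, mem_union, mem_singleton] at hx ⊢
      by_cases h0 : x = τ c - τ c'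
      · exact Or.inr h0
      · exact Or.inl ⟨hx.1, by omega⟩
    refine (card_le_card hsub).trans ((card_union_le _ _).trans ?_)
    rw [card_singleton]
  have h2 := hτ c huw.1
  have h3 : ∀ c' ∈ C, #{x ∈ XX q T G c c' | 0 < x + τ c' - τ c} +
      #{x ∈ XX q T G c c' | x + τ c' - τ c ≤ 0} = #(XX q T G c c') := by
    intro c' _
    have h4 := card_filter_add_card_filter_not (s := XX q T G c c')
      (fun x => 0 < x + τ c' - τ c)
    simp only [not_lt] at h4
    exact h4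
  have h5 : ∑ c' ∈ C, #(XX q T G c c') ≤ ∑ c' ∈ C, (cnt q T G c c' + cnt q T G c' c) :=
    sum_le_sum fun c' hc' => XX_card q T hq G hG0 c c' hcq (hC c' hc')
  rw [← sum_congr rfl h3, sum_add_distrib] at h5
  have h6 := sum_le_sum h1
  rw [sum_add_distrib, sum_const, smul_eq_mul, mul_one] at h6
  have h7 : 2 * #{u' ∈ U | G (max u u' - min u u')} ≤
      ∑ c' ∈ C, (cnt q T G c c' + cnt q T G c' c) + 2 * #C := by omega
  have h8 := hdeg u hu
  have h9 : (2 : ℝ) * (#{u' ∈ U | G (max u u' - min u u')} : ℝ) ≤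
      ((∑ c' ∈ C, (cnt q T G c c' + cnt q T G c' c) : ℕ) : ℝ) + 2 * (#C : ℝ) := by
    exact_mod_cast h7
  linarith

end Pool.Agent.H21.QG2
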