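import Pool.Agent.H21.QG2.CoreSet
import Pool.Agent.H21.QG2.Window
import Pool.Agent.H21.QG2.Removal
import Pool.Agent.H21.QG2.PairCount

/-!
JOB QH-7 (about 150 lines): a quarter of all even integers, counted with the Hardy–Littlewood weight.

Proof of `weighted`. `P`, `c` from `quarter_core`. Given `ε` (WLOG `ε ≤ 1/4`, otherwise the left side is `≤ 0`); apply
`quarter_core` with `ε' = ε / 4`: `n₀`, `N₀`. Let `L` be a prime `≥ P + 8 / ε + 2` (`Nat.exists_infinite_primes`). If all primes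
`≤ L` divide `Q` then `L - 1 ∣ φ(Q)` (`Nat.totient_dvd_of_dvd`, `Nat.totient_prime`), so `n := φ(Q) ≥ L - 1 ≥ 8 / ε`.
Let `M` be large, `T = M / Q` (so `Q T ≤ M`, `T ≥ n₀`, `T > M / Q - 1`), `G = Freq N ε'`. For `C' ⊆ red Q` nonempty,
`V = win Q T C'` has `#C' * T ≥ n₀` elements (`card_win`), all `< Q T ≤ M ≤ c RR N`, and for a prime `p ≤ P`, `p ∣ Q`, no
element is `≡ 0 mod p` (elements are `≡ c mod Q`, `c` coprime to `Q`): take `r = 0`. So `quarter_core` gives `U`, `deg_ge` gives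
the hypothesis of `total_ge` with `δ = 1/4 - ε'`, and `total_ge`, `sum_cnt` give
`δ T n^2 - n (T + 2 n) ≤ ∑ t ∈ Icc 1 (Q T) with G t, pc Q t`, and this sum is at most the one over `Icc 1 M` with
`Freq N ε t` (`N^(1-ε) ≤ N^(1-ε')`). Finally `∑ t ∈ Icc 1 M, pc Q t ≤ n^2 (M / Q + 1)` (`sum_periodic_le`, `pc_sum`) and for
`M ≥ M₀` one has `(1/4 - ε) n^2 (M/Q + 1) ≤ δ T n^2 - n (T + 2 n)`:
`δ T n^2 - n T - 2 n^2 ≥ n^2 (T (1/4 - ε/4 - ε/8) - 2)` as `1/n ≤ ε/8`.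
-/

set_option autoImplicit false

open Finset Filter Topology

namespace Pool.Agent.H21.QG2

open Pool.Agent.H21.QG

open Classical in
/-- `quarter_core` and its weighted consequence, with the same constant `c` -/
theorem weighted : ∃ P : ℕ, ∃ c : ℝ, 0 < c ∧
    (∀ ε : ℝ, 0 < ε → ∃ n₀ N₀ : ℕ,
      ∀ N : ℕ, N₀ ≤ N → ∀ V : Finset ℕ, n₀ ≤ #V → (∀ v ∈ V, (v : ℝ) ≤ c * RR N) →
      (∀ p : ℕ, p.Prime → p ≤ P → ∃ r, ∀ v ∈ V, ¬ v ≡ r [MOD p]) →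
      ∃ U ⊆ V, U.Nonempty ∧ ∀ u ∈ U, (1 / 4 - ε) * (#V : ℝ) ≤
        (#{u' ∈ U | Freq N ε (max u u' - min u u')} : ℝ)) ∧
    (∀ ε : ℝ, 0 < ε → ∃ L : ℕ, ∀ Q : ℕ, 0 < Q → (∀ p : ℕ, p.Prime → p ≤ L → p ∣ Q) →
      ∃ M₀ N₀ : ℕ, ∀ N : ℕ, N₀ ≤ N → ∀ M : ℕ, M₀ ≤ M → (M : ℝ) ≤ c * RR N →
      (1 / 4 - ε) * ∑ t ∈ Icc 1 M, (pc Q t : ℝ) ≤
        ∑ t ∈ Icc 1 M with Freq N ε t, (pc Q t : ℝ)) := by
  obtain ⟨P, c, hc, hcore⟩ := quarter_core
  refine ⟨P, c, hc, hcore, fun ε hε => ?_⟩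
  by_cases hε4 : 1 / 4 ≤ ε
  · refine ⟨0, fun Q _ _ => ⟨0, 0, fun N _ M _ _ => ?_⟩⟩
    have h1 : 0 ≤ ∑ t ∈ Icc 1 M, (pc Q t : ℝ) := Finset.sum_nonneg fun _ _ => Nat.cast_nonneg _
    have h2 : 0 ≤ ∑ t ∈ Icc 1 M with Freq N ε t, (pc Q t : ℝ) :=
      Finset.sum_nonneg fun _ _ => Nat.cast_nonneg _
    have h3 : (1 / 4 - ε) * ∑ t ∈ Icc 1 M, (pc Q t : ℝ) ≤ 0 :=
      mul_nonpos_of_nonpos_of_nonneg (by linarith) h1
    linarith
  push Not at hε4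
  obtain ⟨n₀, N₀, hN₀⟩ := hcore (ε / 4) (by linarith)
  obtain ⟨L, hL, hLp⟩ := Nat.exists_infinite_primes (P + ⌈8 / ε⌉₊ + 2)
  refine ⟨L, fun Q hQ hLQ => ⟨Q * (n₀ + ⌈4 / ε⌉₊ + 1), max N₀ 1, fun N hN M hM hMR => ?_⟩⟩
  have hNN : N₀ ≤ N := (le_max_left _ _).trans hN
  have hN1 : 1 ≤ N := (le_max_right _ _).trans hN
  have hQ0 : (0 : ℝ) < Q := by exact_mod_cast hQ
  -- the number of classes
  set n : ℕ := Nat.totient Q with hn
  have hn1 : L - 1 ≤ n := by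
    have h1 : Nat.totient L ∣ n := Nat.totient_dvd_of_dvd (hLQ L hLp le_rfl)
    rw [Nat.totient_prime hLp] at h1
    exact Nat.le_of_dvd (Nat.totient_pos.mpr hQ) h1
  have hn8 : 8 / ε ≤ n := by
    have h1 : 8 / ε ≤ ⌈8 / ε⌉₊ := Nat.le_ceil _
    have h2 : ⌈8 / ε⌉₊ ≤ n := by omega
    exact h1.trans (by exact_mod_cast h2)
  have hnpos : (0 : ℝ) < n := lt_of_lt_of_le (by positivity) hn8
  -- the number of blocks
  set T : ℕ := M / Q with hT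
  have hT1 : n₀ + ⌈4 / ε⌉₊ + 1 ≤ T := by
    rw [hT, Nat.le_div_iff_mul_le hQ, mul_comm]
    exact hM
  have hQT : Q * T ≤ M := Nat.mul_div_le M Q
  have hMT : (M : ℝ) / Q ≤ T + 1 := by
    rw [div_le_iff₀ hQ0]
    have h1 : M < Q * (T + 1) := by
      rw [hT]
      exact Nat.lt_mul_div_succ M hQ
    have h2 : (M : ℝ) ≤ Q * (T + 1) := by exact_mod_cast h1.le
    linarith [mul_comm (Q : ℝ) (T + 1)]
  have hT4 : 4 / ε ≤ T := by
    have h1 : 4 / ε ≤ ⌈4 / ε⌉₊ := Nat.le_ceil _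
    have h2 : ⌈4 / ε⌉₊ ≤ T := by omega
    exact h1.trans (by exact_mod_cast h2)
  have hredlt : ∀ a ∈ red Q, a < Q := fun a ha => Finset.mem_range.mp (Finset.mem_filter.mp ha).1
  have hredco : ∀ a ∈ red Q, Nat.Coprime a Q := fun a ha => (Finset.mem_filter.mp ha).2
  -- the degree condition
  have hdeg : ∀ C' ⊆ red Q, C'.Nonempty → ∃ c ∈ C',
      2 * ((1 / 4 - ε / 4) * (#C' * T) - #C') ≤
      ((∑ c' ∈ C', (cnt Q T (Freq N (ε / 4)) c c' + cnt Q T (Freq N (ε / 4)) c' c) : ℕ) : ℝ) := by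
    intro C' hC' hne
    have hClt : ∀ a ∈ C', a < Q := fun a ha => hredlt a (hC' ha)
    have hcard := card_win Q T C' hClt
    have hmem : ∀ v ∈ win Q T C', ∃ a ∈ C', ∃ k < T, v = a + Q * k := by
      intro v hv
      unfold win at hv
      obtain ⟨p, hp, hpv⟩ := Finset.mem_image.mp hv
      rw [Finset.mem_product, Finset.mem_range] at hp
      exact ⟨p.1, hp.1, p.2, hp.2, hpv.symm⟩
    obtain ⟨U, hU, hUne, hUdeg⟩ := hN₀ N hNN (win Q T C') (by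
        rw [hcard]
        have h1 : 1 ≤ #C' := Finset.card_pos.mpr hne
        calc n₀ ≤ T := by omega
          _ = 1 * T := (one_mul T).symm
          _ ≤ #C' * T := Nat.mul_le_mul_right T h1)
      (by
        intro v hv
        obtain ⟨a, ha, k, hk, rfl⟩ := hmem v hv
        refine le_trans ?_ hMR
        have h1 : a + Q * k ≤ M := by
          have h2 : Q * (k + 1) ≤ Q * T := Nat.mul_le_mul_left Q hk
          have h3 := hClt a ha
          rw [Nat.mul_add, Nat.mul_one] at h2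
          omega
        exact_mod_cast h1)
      (by
        intro p hp hpP
        refine ⟨0, fun v hv hcon => ?_⟩
        obtain ⟨a, ha, k, hk, rfl⟩ := hmem v hv
        have hpQ : p ∣ Q := hLQ p hp (by omega)
        have h1 : p ∣ a + Q * k := (Nat.modEq_zero_iff_dvd).mp hcon
        have h2 : p ∣ a := (Nat.dvd_add_left (hpQ.mul_right k)).mp h1
        have h3 := hredco a (hC' ha)
        exact hp.one_lt.ne' (Nat.dvd_one.mp (h3 ▸ Nat.dvd_gcd h2 hpQ)))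
    refine deg_ge Q T hQ C' hClt (Freq N (ε / 4)) (not_freq_zero N hN1 _) (1 / 4 - ε / 4) U hU
      hUne ?_
    intro u hu
    have h1 := hUdeg u hu
    rw [hcard, Nat.cast_mul] at h1
    convert h1 using 3
  have htot := total_ge Q T hQ (Freq N (ε / 4)) (1 / 4 - ε / 4) (red Q) hredlt hdeg
  rw [sum_cnt Q T hQ, card_red, ← hn] at htot
  -- comparison of the sums
  have hle : ((∑ t ∈ Icc 1 (Q * T) with Freq N (ε / 4) t, pc Q t : ℕ) : ℝ) ≤
      ∑ t ∈ Icc 1 M with Freq N ε t, (pc Q t : ℝ) := by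
    rw [Nat.cast_sum]
    refine Finset.sum_le_sum_of_subset_of_nonneg ?_ fun _ _ _ => Nat.cast_nonneg _
    intro t ht
    rw [Finset.mem_filter, Finset.mem_Icc] at ht ⊢
    refine ⟨⟨ht.1.1, ht.1.2.trans hQT⟩, ?_⟩
    refine le_trans ?_ ht.2
    exact Real.rpow_le_rpow_of_exponent_le (by exact_mod_cast hN1) (by linarith)
  have hup : ∑ t ∈ Icc 1 M, (pc Q t : ℝ) ≤ ((M : ℝ) / Q + 1) * (n : ℝ) ^ 2 := by
    have h1 := sum_periodic_le Q hQ (fun t => (pc Q t : ℝ))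
      (fun t => by rw [pc_add_right]) (fun t => Nat.cast_nonneg _) M
    have h2 : ∑ t ∈ range Q, (pc Q t : ℝ) = (n : ℝ) ^ 2 := by
      rw [← Nat.cast_sum, pc_sum Q hQ, hn]
      push_cast
      rfl
    rw [h2] at h1
    exact h1
  refine le_trans ?_ hle
  refine le_trans ?_ htot
  have h1 : (1 / 4 - ε) * ∑ t ∈ Icc 1 M, (pc Q t : ℝ) ≤ (1 / 4 - ε) * ((T + 2) * (n : ℝ) ^ 2) := by
    refine mul_le_mul_of_nonneg_left (hup.trans ?_) (by linarith)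
    refine mul_le_mul_of_nonneg_right ?_ (sq_nonneg _)
    linarith
  refine h1.trans ?_
  have h2 : (T : ℝ) ≤ ε / 8 * (n * T) := by
    have h3 : 1 ≤ ε / 8 * n := by
      rw [div_le_iff₀ hε] at hn8
      linarith
    have h4 : (0 : ℝ) ≤ T := Nat.cast_nonneg _
    nlinarith
  have h5 : 4 ≤ ε * T := by
    rw [div_le_iff₀ hε] at hT4
    linarith
  have h6 : (n : ℝ) * T ≤ ε / 8 * (n ^ 2 * T) := by
    have := mul_le_mul_of_nonneg_left h2 hnpos.le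
    nlinarith
  have h7 : (n : ℝ) ^ 2 * (5 / 2) ≤ n ^ 2 * (5 / 8 * (ε * T)) :=
    mul_le_mul_of_nonneg_left (by linarith) (sq_nonneg _)
  have h8 : 0 ≤ ε * (n : ℝ) ^ 2 := by positivity
  nlinarith

end Pool.Agent.H21.QG2
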